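import Pool.Agent.Helper98.Germ.Engine
import Pool.Agent.Helper31.Toric.Decomp

/-!
# ACC for the thresholds of germs

A strictly increasing sequence of thresholds gives a counterexample family.
-/

open Finset Filter Topology
open scoped ENNReal

namespace Pool.Agent.Helper98.Germ

private theorem mn_super {r d : ℕ} {v : Fin r → Fin d → ℤ} {A : Finset (Fin d → ℤ)}
    (hA : A.Nonempty) {l : Fin r → ℝ} (hl : ∀ i, 0 ≤ l i) {y : Fin d → ℤ}
    (hy : ∀ j, (y j : ℝ) = ∑ i, l i * (v i j : ℝ)) :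
    0 ≤ (mn A y : ℝ) - ∑ i, l i * (mn A (v i) : ℝ) := by
  rw [← val_expo v hA l y hy]
  obtain ⟨α, _, hα⟩ := exists_val_eq (E := expo v A) (hA.image _) l
  rw [← hα]
  exact Finset.sum_nonneg fun i _ => mul_nonneg (Nat.cast_nonneg _) (hl i)

private theorem dcc_insert {Γ : Set ℝ} (h : DCC Γ) :
    Pool.Agent.Helper31.Toric.DCC (insert 0 Γ) := by
  rintro ⟨f, hf, hmem⟩
  by_cases h0 : ∃ n0, f n0 = 0
  · obtain ⟨n0, hn0⟩ := h0
    apply h
    refine ⟨fun n => f (n0 + 1 + n), fun a b hab => hf (by omega), fun n => ?_⟩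
    have h1 : f (n0 + 1 + n) < f n0 := hf (by omega)
    rcases hmem (n0 + 1 + n) with h2 | h2
    · rw [h2, hn0] at h1
      exact absurd h1 (lt_irrefl _)
    · exact h2
  · push Not at h0
    apply h
    refine ⟨f, hf, fun n => ?_⟩
    rcases hmem n with h2 | h2
    · exact absurd h2 (h0 n)
    · exact h2

private theorem exists_lower {Γ : Set ℝ} (h : DCC Γ) :
    ∃ β : ℝ, 0 < β ∧ ∀ x ∈ Γ, 0 < x → β ≤ x := by
  by_cases hex : ∃ x ∈ Γ, 0 < x
  · have h' : Pool.Agent.Helper31.Toric.DCC Γ := h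
    obtain ⟨x, _, hx2, hx3⟩ := h'.exists_min (fun x => 0 < x) hex
    exact ⟨x, hx2, hx3⟩
  · push Not at hex
    exact ⟨1, one_pos, fun x hx hx0 => absurd hx0 (not_lt.mpr (hex x hx))⟩

theorem IsLC.mono {r d e p : ℕ} {ε : ℝ} {v : Fin r → Fin d → ℤ}
    {A : Fin e → Finset (Fin d → ℤ)} {C : Fin p → Finset (Fin d → ℤ)} {b c : Fin r → ℝ}
    {b' c' : Fin p → ℝ} (hd : IsData v A C) (h : IsLC ε v A C b b') (hb : ∀ i, c i ≤ b i)
    (hb' : ∀ j, c' j ≤ b' j) : IsLC ε v A C c c' := by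
  refine ⟨fun j => (hb' j).trans (h.1 j), fun l y hl hy0 hy hT => ?_⟩
  refine (h.2 l y hl hy0 hy hT).trans ?_
  unfold ld
  have h1 : ∑ i, l i * (1 - b i) ≤ ∑ i, l i * (1 - c i) :=
    Finset.sum_le_sum fun i _ => mul_le_mul_of_nonneg_left (by linarith [hb i]) (hl i)
  have h2 : ∑ j, c' j * ((mn (C j) y : ℝ) - ∑ i, l i * (mn (C j) (v i) : ℝ)) ≤
      ∑ j, b' j * ((mn (C j) y : ℝ) - ∑ i, l i * (mn (C j) (v i) : ℝ)) :=
    Finset.sum_le_sum fun j _ => mul_le_mul_of_nonneg_right (hb' j)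
      (mn_super (hd.2.2.2.2.1 j) hl hy)
  linarith

theorem acc_thresholds (n : ℕ) {E Γ₁ Γ₂ : Set ℝ} (hE : DCC E) (h1 : DCC Γ₁) (h2 : DCC Γ₂) :
    ACC (thresholds n E Γ₁ Γ₂) := by
  classical
  rintro ⟨t, ht, hmem⟩
  -- a common `e`
  have hP : ∀ m, ∃ e, e ≤ 1 ∧ ∃ ε ∈ E, ∃ (r p : ℕ) (v : Fin r → Fin (n + e) → ℤ)
      (A : Fin e → Finset (Fin (n + e) → ℤ)) (C : Fin p → Finset (Fin (n + e) → ℤ))
      (b μ : Fin r → ℝ) (b' μ' : Fin p → ℝ), IsData v A C ∧ 0 ≤ ε ∧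
      (∀ i, (b i = 0 ∨ b i ∈ Γ₁) ∧ 0 ≤ b i) ∧ (∀ j, (b' j = 0 ∨ b' j ∈ Γ₁) ∧ 0 ≤ b' j) ∧
      (∀ i, (μ i = 0 ∨ μ i ∈ Γ₂) ∧ 0 ≤ μ i) ∧ (∀ j, (μ' j = 0 ∨ μ' j ∈ Γ₂) ∧ 0 ≤ μ' j) ∧
      IsLC ε v A C b b' ∧ t m = threshold ε v A C b μ b' μ' := by
    intro m
    obtain ⟨ε, hε, d, e, r, p, v, A, C, b, μ, b', μ', hde, h3⟩ := hmem m
    subst hde
    exact ⟨e, h3.1.1, ε, hε, r, p, v, A, C, b, μ, b', μ', h3⟩
  choose e he1 hP' using hP
  obtain ⟨e₀, he₀⟩ : ∃ e₀ : ℕ, ∃ᶠ m in atTop, e m = e₀ := by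
    by_contra hcon
    push Not at hcon
    have h3 : ∀ᶠ m in atTop, ∀ e₀ ∈ Finset.range (1 + 1), ¬ e m = e₀ := by
      rw [Filter.eventually_all_finset]
      intro e₀ _
      exact hcon e₀
    obtain ⟨m, hm⟩ := h3.exists
    exact hm (e m) (Finset.mem_range.mpr (Nat.lt_succ_of_le (he1 m))) rfl
  obtain ⟨φ₀, hφ₀, hφe⟩ := Filter.extraction_of_frequently_atTop he₀
  have hQ : ∀ m, ∃ ε ∈ E, ∃ (r p : ℕ) (v : Fin r → Fin (n + e₀) → ℤ)
      (A : Fin e₀ → Finset (Fin (n + e₀) → ℤ)) (C : Fin p → Finset (Fin (n + e₀) → ℤ))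
      (b μ : Fin r → ℝ) (b' μ' : Fin p → ℝ), IsData v A C ∧ 0 ≤ ε ∧
      (∀ i, (b i = 0 ∨ b i ∈ Γ₁) ∧ 0 ≤ b i) ∧ (∀ j, (b' j = 0 ∨ b' j ∈ Γ₁) ∧ 0 ≤ b' j) ∧
      (∀ i, (μ i = 0 ∨ μ i ∈ Γ₂) ∧ 0 ≤ μ i) ∧ (∀ j, (μ' j = 0 ∨ μ' j ∈ Γ₂) ∧ 0 ≤ μ' j) ∧
      IsLC ε v A C b b' ∧ t (φ₀ m) = threshold ε v A C b μ b' μ' := by
    intro m
    have h3 := hP' (φ₀ m)
    rw [hφe m] at h3
    exact h3
  choose ε hεE r p v A C b μ b' μ' hdat hε0 hb hb' hm hm' hcomp hthr using hQ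
  have ht' : StrictMono (fun m => t (φ₀ m)) := fun a b hab => ht (hφ₀ hab)
  have hs : ∀ m, ∃ σ : ℝ, 0 ≤ σ ∧ t (φ₀ m) < ENNReal.ofReal σ ∧
      ENNReal.ofReal σ < t (φ₀ (m + 1)) :=
    fun m => ENNReal.lt_iff_exists_real_btwn.mp (ht' (Nat.lt_succ_self m))
  choose σ hσ0 hσ1 hσ2 using hs
  have hσpos : ∀ m, 0 < σ m := fun m =>
    ENNReal.ofReal_pos.mp (lt_of_le_of_lt bot_le (hσ1 m))
  have hσlt : ∀ a m, a < m → ENNReal.ofReal (σ a) < t (φ₀ m) := fun a m ham =>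
    (hσ2 a).trans_le (ht'.monotone ham)
  have hσmono : ∀ a m, a ≤ m → σ a ≤ σ m := by
    intro a m ham
    rcases ham.lt_or_eq with h3 | h3
    · have h4 := (hσlt a m h3).trans (hσ1 m)
      exact ((ENNReal.ofReal_lt_ofReal_iff (hσpos m)).mp h4).le
    · rw [h3]
  have hnot : ∀ m, ¬ IsLC (ε m) (v m) (A m) (C m) (fun i => b m i + σ m * μ m i)
      (fun j => b' m j + σ m * μ' m j) := by
    intro m hcon
    have h3 : ENNReal.ofReal (σ m) ≤ t (φ₀ m) := by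
      rw [hthr m]
      exact le_iSup₂_of_le (σ m) ⟨hσ0 m, hcon⟩ le_rfl
    exact absurd (hσ1 m) (not_lt.mpr h3)
  have hyes : ∀ a m, a < m → IsLC (ε m) (v m) (A m) (C m) (fun i => b m i + σ a * μ m i)
      (fun j => b' m j + σ a * μ' m j) := by
    intro a m ham
    have h3 : ENNReal.ofReal (σ a) < threshold (ε m) (v m) (A m) (C m) (b m) (μ m) (b' m)
        (μ' m) := by
      rw [← hthr m]
      exact hσlt a m ham
    rw [threshold, lt_iSup_iff] at h3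
    obtain ⟨s', h3⟩ := h3
    rw [lt_iSup_iff] at h3
    obtain ⟨⟨hs', hcs'⟩, h3⟩ := h3
    have h4 : σ a ≤ s' := by
      by_contra h5
      push Not at h5
      exact absurd h3 (not_lt.mpr (ENNReal.ofReal_le_ofReal h5.le))
    refine IsLC.mono (hdat m) hcs' (fun i => ?_) (fun j => ?_)
    · have := mul_le_mul_of_nonneg_right h4 (hm m i).2
      linarith
    · have := mul_le_mul_of_nonneg_right h4 (hm' m j).2
      linarith
  obtain ⟨β, hβ0, hβ⟩ := exists_lower h1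
  obtain ⟨γ, hγ0, hγ⟩ := exists_lower h2
  have hlow : ∀ a m i, ¬ (b' m i = 0 ∧ μ' m i = 0) →
      min β (σ 0 * γ) ≤ b' m i + σ a * μ' m i := by
    intro a m i hz
    by_cases hb0 : b' m i = 0
    · have hμ0 : μ' m i ≠ 0 := fun h => hz ⟨hb0, h⟩
      have h3 : μ' m i ∈ Γ₂ := ((hm' m i).1).resolve_left hμ0
      have h4 : 0 < μ' m i := lt_of_le_of_ne (hm' m i).2 (Ne.symm hμ0)
      have h5 := hγ _ h3 h4
      have h6 := hσmono 0 a (Nat.zero_le a)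
      have h7 : σ 0 * γ ≤ σ a * μ' m i := mul_le_mul h6 h5 hγ0.le (hσ0 a)
      have h8 := min_le_right β (σ 0 * γ)
      have h9 := (hb' m i).2
      linarith
    · have h3 : b' m i ∈ Γ₁ := ((hb' m i).1).resolve_left hb0
      have h4 : 0 < b' m i := lt_of_le_of_ne (hb' m i).2 (Ne.symm hb0)
      have h5 := hβ _ h3 h4
      have h6 : 0 ≤ σ a * μ' m i := mul_nonneg (hσ0 a) (hm' m i).2
      have h8 := min_le_left β (σ 0 * γ)
      linarith
  refine Fam.false (d := n + e₀) (e := e₀)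
    { r := r
      p := p
      v := v
      A := A
      C := C
      ε := ε
      B := fun m i => b m i + σ m * μ m i
      B' := fun m j => b' m j + σ m * μ' m j
      G := fun a m i => b m i + σ a * μ m i
      G' := fun a m j => b' m j + σ a * μ' m j
      Z := fun m j => b' m j = 0 ∧ μ' m j = 0
      c₀ := min β (σ 0 * γ)
      data := hdat
      hε := hε0
      hB0 := fun m i => add_nonneg (hb m i).2 (mul_nonneg (hσ0 m) (hm m i).2)
      hB0' := fun m i => add_nonneg (hb' m i).2 (mul_nonneg (hσ0 m) (hm' m i).2)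
      hG0 := fun a m i => add_nonneg (hb m i).2 (mul_nonneg (hσ0 a) (hm m i).2)
      hG0' := fun a m i => add_nonneg (hb' m i).2 (mul_nonneg (hσ0 a) (hm' m i).2)
      hc₀ := lt_min hβ0 (mul_pos (hσpos 0) hγ0)
      hZB := fun m i hz => by
        show b' m i + σ m * μ' m i = 0
        rw [hz.1, hz.2, mul_zero, add_zero]
      hZG := fun a m i hz => hlow a m i hz
      hnot := hnot
      hyes := hyes
      hsel := ?_ }
  intro K P φ hφ f g
  obtain ⟨s, hs, hmono⟩ := Pool.Agent.Helper31.Toric.mono_subseq_finset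
    (ι := Unit ⊕ ((Fin K ⊕ Fin K) ⊕ (Fin P ⊕ Fin P))) Finset.univ
    (Sum.elim (fun _ m => ε (φ m)) (Sum.elim (Sum.elim (fun i m => b (φ m) (f m i))
      (fun i m => μ (φ m) (f m i))) (Sum.elim (fun i m => b' (φ m) (g m i))
      (fun i m => μ' (φ m) (g m i)))))
    (Sum.elim (fun _ => E) (Sum.elim (Sum.elim (fun _ => insert 0 Γ₁) (fun _ => insert 0 Γ₂))
      (Sum.elim (fun _ => insert 0 Γ₁) (fun _ => insert 0 Γ₂))))
    (by
      rintro (i | (i | i) | i | i)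
      · exact hE
      · exact dcc_insert h1
      · exact dcc_insert h2
      · exact dcc_insert h1
      · exact dcc_insert h2)
    (by
      rintro (i | (i | i) | i | i) m
      · exact hεE (φ m)
      · exact (hb (φ m) (f m i)).1
      · exact (hm (φ m) (f m i)).1
      · exact (hb' (φ m) (g m i)).1
      · exact (hm' (φ m) (g m i)).1)
  have mε : Monotone ((fun m => ε (φ m)) ∘ s) := hmono (Sum.inl ()) (Finset.mem_univ _)
  have mb : ∀ i, Monotone ((fun m => b (φ m) (f m i)) ∘ s) := fun i =>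
    hmono (Sum.inr (Sum.inl (Sum.inl i))) (Finset.mem_univ _)
  have mμ : ∀ i, Monotone ((fun m => μ (φ m) (f m i)) ∘ s) := fun i =>
    hmono (Sum.inr (Sum.inl (Sum.inr i))) (Finset.mem_univ _)
  have mb' : ∀ i, Monotone ((fun m => b' (φ m) (g m i)) ∘ s) := fun i =>
    hmono (Sum.inr (Sum.inr (Sum.inl i))) (Finset.mem_univ _)
  have mμ' : ∀ i, Monotone ((fun m => μ' (φ m) (g m i)) ∘ s) := fun i =>
    hmono (Sum.inr (Sum.inr (Sum.inr i))) (Finset.mem_univ _)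
  refine ⟨s, hs, fun a b hab => mε hab, fun a δ hδ => ?_⟩
  filter_upwards [eventually_ge_atTop a] with c hc
  constructor
  · intro i
    have h3 : b (φ (s a)) (f (s a) i) ≤ b (φ (s c)) (f (s c) i) := mb i hc
    have h4 : μ (φ (s a)) (f (s a) i) ≤ μ (φ (s c)) (f (s c) i) := mμ i hc
    have h5 := mul_le_mul_of_nonneg_left h4 (hσ0 (φ (s a)))
    show b (φ (s a)) (f (s a) i) + σ (φ (s a)) * μ (φ (s a)) (f (s a) i) ≤
      b (φ (s c)) (f (s c) i) + σ (φ (s a)) * μ (φ (s c)) (f (s c) i) + δ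
    linarith
  · intro i
    have h3 : b' (φ (s a)) (g (s a) i) ≤ b' (φ (s c)) (g (s c) i) := mb' i hc
    have h4 : μ' (φ (s a)) (g (s a) i) ≤ μ' (φ (s c)) (g (s c) i) := mμ' i hc
    have h5 := mul_le_mul_of_nonneg_left h4 (hσ0 (φ (s a)))
    show b' (φ (s a)) (g (s a) i) + σ (φ (s a)) * μ' (φ (s a)) (g (s a) i) ≤
      b' (φ (s c)) (g (s c) i) + σ (φ (s a)) * μ' (φ (s c)) (g (s c) i) + δ
    linarith

end Pool.Agent.Helper98.Germ
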