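import Pool.Agent.Helper98.Germ.Val

/-!
# The axioms of the inversion of adjunction hold for basic violations
-/

open Finset Filter Topology

namespace Pool.Agent.Helper98.Germ

open Pool.Agent.Helper31.Toric (intVec coefGroup)

private theorem ax_mem_expo {k d : ℕ} {v' : Fin k → Fin d → ℤ} {A : Finset (Fin d → ℤ)}
    {α : Fin k → ℕ} : α ∈ expo v' A ↔
      ∃ w ∈ A, (fun i => (pair w (v' i) - mn A (v' i)).toNat) = α := by
  unfold expo
  rw [Finset.mem_image]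

private theorem ax_pair {k d : ℕ} {v' : Fin k → Fin d → ℤ} (w : Fin d → ℤ) {μ : Fin k → ℝ}
    {y : Fin d → ℤ} (hy : ∀ j, (y j : ℝ) = ∑ i, μ i * (v' i j : ℝ)) :
    (pair w y : ℝ) = ∑ i, μ i * (pair w (v' i) : ℝ) := by
  unfold pair
  push_cast
  calc ∑ j, (w j : ℝ) * (y j : ℝ) = ∑ j, ∑ i, μ i * ((w j : ℝ) * (v' i j : ℝ)) := by
        refine Finset.sum_congr rfl fun j _ => ?_
        rw [hy, Finset.mul_sum]
        exact Finset.sum_congr rfl fun i _ => by ring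
    _ = ∑ i, ∑ j, μ i * ((w j : ℝ) * (v' i j : ℝ)) := Finset.sum_comm
    _ = _ := Finset.sum_congr rfl fun i _ => by rw [← Finset.mul_sum]

private theorem ax_int {k d : ℕ} {v' : Fin k → Fin d → ℤ} {A : Finset (Fin d → ℤ)}
    {μ : Fin k → ℝ} {y : Fin d → ℤ} (hy : ∀ j, (y j : ℝ) = ∑ i, μ i * (v' i j : ℝ))
    {α α' : Fin k → ℕ} (hα : α ∈ expo v' A) (hα' : α' ∈ expo v' A) :
    ∃ z : ℤ, dot α μ - dot α' μ = z := by
  obtain ⟨w, hw, rfl⟩ := ax_mem_expo.1 hα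
  obtain ⟨w', hw', rfl⟩ := ax_mem_expo.1 hα'
  refine ⟨pair w y - pair w' y, ?_⟩
  rw [dot_expo v' hw μ y hy, dot_expo v' hw' μ y hy]
  push_cast
  ring

private theorem ax_min {k d : ℕ} {v' : Fin k → Fin d → ℤ} {A : Finset (Fin d → ℤ)}
    {μ : Fin k → ℝ} {y : Fin d → ℤ} (hy : ∀ j, (y j : ℝ) = ∑ i, μ i * (v' i j : ℝ))
    {w : Fin d → ℤ} (hw : w ∈ A)
    (h : dot (fun i => (pair w (v' i) - mn A (v' i)).toNat) μ = val (expo v' A) μ) :
    pair w y = mn A y := by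
  rw [dot_expo v' hw μ y hy, val_expo v' ⟨w, hw⟩ μ y hy, sub_left_inj] at h
  exact_mod_cast h

private theorem ax_eq {k d : ℕ} {v' : Fin k → Fin d → ℤ} {A : Finset (Fin d → ℤ)}
    {μ : Fin k → ℝ} {y : Fin d → ℤ} (hy : ∀ j, (y j : ℝ) = ∑ i, μ i * (v' i j : ℝ))
    (hμ : ∀ i, 0 ≤ μ i) {w₀ w : Fin d → ℤ} (hw₀ : w₀ ∈ A) (hw : pair w y = mn A y)
    (hle : ∀ i, pair w₀ (v' i) ≤ pair w (v' i)) (i : Fin k) (hi : 0 < μ i) :
    pair w₀ (v' i) = pair w (v' i) := by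
  have h1 : pair w y ≤ pair w₀ y := by rw [hw]; exact mn_le hw₀ y
  have h2 : (pair w y : ℝ) ≤ pair w₀ y := by exact_mod_cast h1
  rw [ax_pair w hy, ax_pair w₀ hy] at h2
  have h3 : ∀ i ∈ (Finset.univ : Finset (Fin k)),
      0 ≤ μ i * ((pair w (v' i) : ℝ) - (pair w₀ (v' i) : ℝ)) := by
    intro i _
    refine mul_nonneg (hμ i) (sub_nonneg.2 ?_)
    exact_mod_cast hle i
  have h4 : ∑ i, μ i * ((pair w (v' i) : ℝ) - (pair w₀ (v' i) : ℝ)) ≤ 0 := by
    simp only [mul_sub, Finset.sum_sub_distrib]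
    linarith
  have h5 := (Finset.sum_eq_zero_iff_of_nonneg h3).1 (le_antisymm h4 (Finset.sum_nonneg h3)) i
    (Finset.mem_univ i)
  have h6 : (pair w (v' i) : ℝ) - (pair w₀ (v' i) : ℝ) = 0 :=
    (mul_eq_zero.1 h5).resolve_left hi.ne'
  have h7 : (pair w (v' i) : ℝ) = (pair w₀ (v' i) : ℝ) := sub_eq_zero.1 h6
  exact_mod_cast h7.symm

theorem pax_of_data {r d e p k : ℕ} {v : Fin r → Fin d → ℤ} {A : Fin e → Finset (Fin d → ℤ)}
    {C : Fin p → Finset (Fin d → ℤ)} (hd : IsData v A C) (f : Fin k → Fin r) (l : Fin k → ℝ)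
    (hl : ∀ i, 0 < l i) (hT : TropAt v A (fun i => v (f i)) l) :
    PAx (coefGroup (fun i => v (f i))) (eqE (fun i => v (f i)) A)
      (fun t => expo (fun i => v (f i)) (C t)) (TropAt v A (fun i => v (f i))) := by
  obtain ⟨he1, hv0, -, hAne, hCne, hTr⟩ := hd
  have hH : ∀ z : Fin k → ℤ, intVec z ∈ coefGroup (fun i => v (f i)) := by
    intro z
    refine ⟨fun j => ∑ i, z i * v (f i) j, fun j => ?_⟩
    push_cast
    rfl
  have hne : ∀ t, (expo (fun i => v (f i)) (C t)).Nonempty := by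
    intro t
    obtain ⟨w, hw⟩ := hCne t
    exact ⟨_, ax_mem_expo.2 ⟨w, hw, rfl⟩⟩
  have hint : ∀ t, ∀ μ ∈ coefGroup (fun i => v (f i)), ∀ α ∈ expo (fun i => v (f i)) (C t),
      ∀ α' ∈ expo (fun i => v (f i)) (C t),
      ∃ z : ℤ, dot α (fun i => μ i) - dot α' (fun i => μ i) = z := by
    rintro t μ ⟨y, hy⟩ α hα α' hα'
    exact ax_int hy hα hα'
  rcases Nat.le_one_iff_eq_zero_or_eq_one.1 he1 with rfl | rfl
  · have hE : eqE (fun i => v (f i)) A = {0} := rfl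
    rw [hE]
    refine ⟨hH, Finset.singleton_nonempty _, hne, ?_, hint, ?_, ?_, ?_⟩
    · intro μ _ α hα α' hα'
      rw [Finset.mem_singleton] at hα hα'
      exact ⟨0, by rw [hα, hα', sub_self, Int.cast_zero]⟩
    · intro i
      exact ⟨0, Finset.mem_singleton_self _, rfl⟩
    · rintro τ ⟨y, hy⟩ _ α _ α' _ _ _ _
      exact ⟨y, hy, fun h => h.elim0⟩
    · rintro μ ⟨y, hy⟩ _ hn
      exact absurd ⟨y, hy, fun h => h.elim0⟩ hn
  · have hE : eqE (fun i => v (f i)) A = expo (fun i => v (f i)) (A 0) := rfl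
    have hall : ∀ {P : Fin 1 → Prop}, P 0 → ∀ h, P h := by
      intro P hP h
      rwa [Subsingleton.elim h 0]
    rw [hE]
    refine ⟨hH, ?_, hne, ?_, hint, ?_, ?_, ?_⟩
    · obtain ⟨w, hw⟩ := hAne 0
      exact ⟨_, ax_mem_expo.2 ⟨w, hw, rfl⟩⟩
    · rintro μ ⟨y, hy⟩ α hα α' hα'
      exact ax_int hy hα hα'
    · intro i
      obtain ⟨w, hw, he⟩ := exists_mn_eq (hAne 0) (v (f i))
      refine ⟨_, ax_mem_expo.2 ⟨w, hw, rfl⟩, ?_⟩
      show (pair w (v (f i)) - mn (A 0) (v (f i))).toNat = 0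
      rw [he, sub_self]
      rfl
    · rintro τ ⟨y, hy⟩ hτ α hα α' hα' h1 h2 ⟨i, hi, hne'⟩
      obtain ⟨w, hw, rfl⟩ := ax_mem_expo.1 hα
      obtain ⟨w', hw', rfl⟩ := ax_mem_expo.1 hα'
      have m1 := ax_min hy hw h1
      have m2 := ax_min hy hw' h2
      refine ⟨y, hy, hall ?_⟩
      rintro ⟨w₀, hw₀, hmin⟩
      refine hne' ?_
      have e1 := ax_eq hy hτ hw₀ m1 (fun i => hmin w hw m1 (f i)) i hi
      have e2 := ax_eq hy hτ hw₀ m2 (fun i => hmin w' hw' m2 (f i)) i hi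
      show (pair w (v (f i)) - mn (A 0) (v (f i))).toNat = (pair w' (v (f i)) - mn (A 0) (v (f i))).toNat
      rw [← e1, ← e2]
    · rintro μ ⟨y, hy⟩ hμ hn
      have hnT : ¬ Trop v (A 0) y := fun h => hn ⟨y, hy, hall h⟩
      unfold Trop at hnT
      rw [not_not] at hnT
      obtain ⟨w₀, hw₀, hmin⟩ := hnT
      refine ⟨_, ax_mem_expo.2 ⟨w₀, hw₀, rfl⟩, ?_, ?_⟩
      · intro h0
        have hz : ∀ i, pair w₀ (v (f i)) = mn (A 0) (v (f i)) := by
          intro i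
          have h1 : (pair w₀ (v (f i)) - mn (A 0) (v (f i))).toNat = 0 := congrFun h0 i
          have h2 := mn_le hw₀ (v (f i))
          omega
        obtain ⟨yl, hyl, htl⟩ := hT
        refine htl 0 ⟨w₀, hw₀, fun w hw hwl => ?_⟩
        have h1 : ∀ i, pair w₀ (v (f i)) = pair w (v (f i)) := fun i =>
          ax_eq hyl (fun i => (hl i).le) hw₀ hwl
            (fun i => by rw [hz i]; exact mn_le hw _) i (hl i)
        refine hmin w hw ?_
        have h2 : (pair w y : ℝ) = pair w₀ y := by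
          rw [ax_pair w hy, ax_pair w₀ hy]
          exact Finset.sum_congr rfl fun i _ => by rw [h1 i]
        have h3 : pair w y = pair w₀ y := by exact_mod_cast h2
        rw [h3]
        refine le_antisymm ?_ (mn_le hw₀ y)
        obtain ⟨w₁, hw₁, he⟩ := exists_mn_eq (hAne 0) y
        rw [← he]
        have h4 : (pair w₀ y : ℝ) ≤ pair w₁ y := by
          rw [ax_pair w₀ hy, ax_pair w₁ hy]
          refine Finset.sum_le_sum fun i _ => mul_le_mul_of_nonneg_left ?_ (hμ i).le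
          rw [hz i]
          exact_mod_cast mn_le hw₁ _
        exact_mod_cast h4
      · intro α' hα' h1
        obtain ⟨w', hw', rfl⟩ := ax_mem_expo.1 hα'
        have m1 := ax_min hy hw' h1
        funext i
        have e1 := ax_eq hy (fun i => (hμ i).le) hw₀ m1 (fun i => hmin w' hw' m1 (f i)) i (hμ i)
        show (pair w' (v (f i)) - mn (A 0) (v (f i))).toNat =
          (pair w₀ (v (f i)) - mn (A 0) (v (f i))).toNat
        rw [e1]

end Pool.Agent.Helper98.Germ
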