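import Pool.Agent.Helper98.Germ.Val
import Pool.Agent.Helper31.Toric.Finite

/-!
# Basic violations

If the germ is not `ε`-lc and the coefficients `b' j` are at most `1 - ε`, a combination with
log discrepancy smaller than `ε` can be replaced by a combination of linearly independent rays: the
linear programming lemma `exists_basic` is applied to the costs after adding a multiple of the
positive functional.
-/

open Finset Filter Topology

namespace Pool.Agent.Helper98.Germ

private theorem ld_eq' {r d e p : ℕ} (v : Fin r → Fin d → ℤ) (A : Fin e → Finset (Fin d → ℤ))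
    (C : Fin p → Finset (Fin d → ℤ)) (b : Fin r → ℝ) (b' : Fin p → ℝ) (l : Fin r → ℝ)
    (y : Fin d → ℤ) :
    ld v A C b b' l y = ∑ i, l i * (1 - b i + ∑ h, (mn (A h) (v i) : ℝ) +
      ∑ j, b' j * (mn (C j) (v i) : ℝ)) -
        (∑ h, (mn (A h) y : ℝ) + ∑ j, b' j * (mn (C j) y : ℝ)) := by
  have e1 : ∑ h, ((mn (A h) y : ℝ) - ∑ i, l i * (mn (A h) (v i) : ℝ)) =
      ∑ h, (mn (A h) y : ℝ) - ∑ i, l i * ∑ h, (mn (A h) (v i) : ℝ) := by
    rw [Finset.sum_sub_distrib]
    congr 1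
    rw [Finset.sum_comm]
    exact Finset.sum_congr rfl fun i _ => by rw [Finset.mul_sum]
  have e2 : ∑ j, b' j * ((mn (C j) y : ℝ) - ∑ i, l i * (mn (C j) (v i) : ℝ)) =
      ∑ j, b' j * (mn (C j) y : ℝ) - ∑ i, l i * ∑ j, b' j * (mn (C j) (v i) : ℝ) := by
    simp only [mul_sub, Finset.mul_sum, Finset.sum_sub_distrib]
    congr 1
    rw [Finset.sum_comm]
    exact Finset.sum_congr rfl fun i _ => Finset.sum_congr rfl fun j _ => by ring
  have e3 : ∑ i, l i * (1 - b i + ∑ h, (mn (A h) (v i) : ℝ) + ∑ j, b' j * (mn (C j) (v i) : ℝ)) =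
      ∑ i, l i * (1 - b i) + ∑ i, l i * ∑ h, (mn (A h) (v i) : ℝ) +
        ∑ i, l i * ∑ j, b' j * (mn (C j) (v i) : ℝ) := by
    rw [← Finset.sum_add_distrib, ← Finset.sum_add_distrib]
    exact Finset.sum_congr rfl fun i _ => by ring
  unfold ld
  rw [e1, e2, e3]
  ring

theorem exists_violation {r d e p : ℕ} {ε : ℝ} {v : Fin r → Fin d → ℤ}
    {A : Fin e → Finset (Fin d → ℤ)} {C : Fin p → Finset (Fin d → ℤ)} {b : Fin r → ℝ}
    {b' : Fin p → ℝ} (hd : IsData v A C) (h : ¬ IsLC ε v A C b b') :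
    Viol ε v A C b b' ∨ ∃ j, 1 - ε < b' j := by
  classical
  by_cases hb : ∀ j, b' j ≤ 1 - ε
  · left
    have h1 : ¬ ∀ (l : Fin r → ℝ) (y : Fin d → ℤ), (∀ i, 0 ≤ l i) → y ≠ 0 →
        (∀ j, (y j : ℝ) = ∑ i, l i * (v i j : ℝ)) → (∀ h, Trop v (A h) y) →
          ε ≤ ld v A C b b' l y := fun h2 => h ⟨hb, h2⟩
    push Not at h1
    obtain ⟨l, y, hl, hy0, hy, hT, hld⟩ := h1
    obtain ⟨he, -, ⟨u, hu⟩, hA, hC, -⟩ := hd
    obtain ⟨c0, hc0⟩ : ∃ c0 : Fin r → ℝ, c0 = fun i => 1 - b i + ∑ h, (mn (A h) (v i) : ℝ) +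
      ∑ j, b' j * (mn (C j) (v i) : ℝ) := ⟨_, rfl⟩
    obtain ⟨K, hK⟩ : ∃ K : ℝ, K = ∑ h, (mn (A h) y : ℝ) + ∑ j, b' j * (mn (C j) y : ℝ) := ⟨_, rfl⟩
    have hldeq : ∀ a : Fin r → ℝ, ld v A C b b' a y = ∑ i, a i * c0 i - K := by
      intro a
      rw [ld_eq', hc0, hK]
    obtain ⟨Pu, hPu⟩ : ∃ Pu : Fin r → ℝ, Pu = fun i => ∑ j, u j * (v i j : ℝ) := ⟨_, rfl⟩
    have hPu0 : ∀ i, 0 < Pu i := by
      intro i
      rw [hPu]
      exact hu i
    obtain ⟨lam, hlam⟩ : ∃ lam : ℝ, ∀ i, 0 ≤ c0 i + lam * Pu i := by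
      refine ⟨∑ i, |c0 i| / Pu i, fun i => ?_⟩
      have h2 : |c0 i| / Pu i ≤ ∑ i, |c0 i| / Pu i :=
        Finset.single_le_sum (f := fun i => |c0 i| / Pu i)
          (fun i _ => div_nonneg (abs_nonneg _) (hPu0 i).le) (Finset.mem_univ i)
      have h3 := mul_le_mul_of_nonneg_right h2 (hPu0 i).le
      rw [div_mul_cancel₀ _ (hPu0 i).ne'] at h3
      have h4 := neg_abs_le (c0 i)
      linarith
    have hsw : ∀ a : Fin r → ℝ, (∀ j, (y j : ℝ) = ∑ i, a i * (v i j : ℝ)) →
        ∑ i, a i * (c0 i + lam * Pu i) = ∑ i, a i * c0 i + lam * ∑ j, u j * (y j : ℝ) := by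
      intro a ha
      have h2 : ∑ j, u j * (y j : ℝ) = ∑ i, a i * Pu i := by
        rw [hPu]
        simp only [Finset.mul_sum]
        rw [Finset.sum_comm]
        refine Finset.sum_congr rfl fun j _ => ?_
        rw [ha j, Finset.mul_sum]
        exact Finset.sum_congr rfl fun i _ => by ring
      rw [h2, Finset.mul_sum, ← Finset.sum_add_distrib]
      exact Finset.sum_congr rfl fun i _ => by ring
    obtain ⟨S, a, ha1, ha2, ha3, ha4, ha5⟩ := Pool.Agent.Helper31.Toric.exists_basic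
      (fun i j => (v i j : ℝ)) (fun i => c0 i + lam * Pu i) hlam (fun j => (y j : ℝ))
      (ε + K + lam * ∑ j, u j * (y j : ℝ)) ⟨l, hl, hy, by
        rw [hsw l hy]
        have h2 := hldeq l
        linarith⟩
    rw [hsw a ha3] at ha4
    have hsum : ∀ g : Fin r → ℝ, ∑ i : Fin S.card, a (S.orderEmbOfFin rfl i) *
        g (S.orderEmbOfFin rfl i) = ∑ i, a i * g i := by
      intro g
      have h2 : ∑ i, a i * g i = ∑ i ∈ S, a i * g i := by
        symm
        refine Finset.sum_subset (Finset.subset_univ S) fun i _ hi => ?_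
        rw [ha2 i hi, zero_mul]
      rw [h2]
      have h3 := Finset.sum_map Finset.univ (S.orderEmbOfFin rfl).toEmbedding (fun i => a i * g i)
      rw [Finset.map_orderEmbOfFin_univ] at h3
      exact h3.symm
    have hS : ∀ i : Fin S.card, 0 < a (S.orderEmbOfFin rfl i) := fun i =>
      ha1 _ (Finset.orderEmbOfFin_mem S rfl i)
    have hyS : ∀ j, (y j : ℝ) = ∑ i : Fin S.card, a (S.orderEmbOfFin rfl i) *
        (v (S.orderEmbOfFin rfl i) j : ℝ) := by
      intro j
      rw [hsum (fun i => (v i j : ℝ))]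
      exact ha3 j
    refine ⟨S.card, S.orderEmbOfFin rfl, fun i => a (S.orderEmbOfFin rfl i), y, ?_, hS, hy0, hyS,
      hT, ?_⟩
    · have h2 := ha5.fintype_card_le_finrank
      rw [Module.finrank_fintype_fun_eq_card, Fintype.card_fin, Fintype.card_coe] at h2
      exact h2
    · have h3 : cost (fun i => b (S.orderEmbOfFin rfl i)) b'
          (eqE (fun i => v (S.orderEmbOfFin rfl i)) A)
          (fun t => expo (fun i => v (S.orderEmbOfFin rfl i)) (C t))
          (fun i => a (S.orderEmbOfFin rfl i)) = ld v A C b b' a y := by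
        unfold cost ld
        rw [← sum_val_eq he]
        have h4 : ∀ h, val (expo (fun i => v (S.orderEmbOfFin rfl i)) (A h))
            (fun i => a (S.orderEmbOfFin rfl i)) =
            (mn (A h) y : ℝ) - ∑ i, a i * (mn (A h) (v i) : ℝ) := by
          intro h
          rw [val_expo _ (hA h) _ y hyS, hsum (fun i => (mn (A h) (v i) : ℝ))]
        have h5 : ∀ t, val (expo (fun i => v (S.orderEmbOfFin rfl i)) (C t))
            (fun i => a (S.orderEmbOfFin rfl i)) =
            (mn (C t) y : ℝ) - ∑ i, a i * (mn (C t) (v i) : ℝ) := by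
          intro t
          rw [val_expo _ (hC t) _ y hyS, hsum (fun i => (mn (C t) (v i) : ℝ))]
        rw [hsum (fun i => 1 - b i), Finset.sum_congr rfl fun h _ => h4 h]
        congr 1
        exact Finset.sum_congr rfl fun t _ => by rw [h5 t]
      rw [h3, hldeq a]
      linarith
  · right
    push Not at hb
    exact hb

end Pool.Agent.Helper98.Germ
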