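import Mathlib

/-!
# Convergence of monomial ideals along a subsequence

Plan. Let `𝒰 = hyperfilter ℕ` and, for `t : Fin P`,
`I t = {α | ∀ᶠ n in 𝒰, ∃ α' ∈ E n t, α' ≤ α}`, an upper set of `Fin k → ℕ`. By Dickson's lemma it
is generated by finitely many elements `G t` (the minimal elements of `I t` are finitely many:
`Set.PartiallyWellOrderedOn`/`Set.isPWO_of_wellQuasiOrderedLE`, antichains are finite, and every
element is above a minimal one). Call `n` good if for all `t` and `γ ∈ G t` there is `α' ∈ E n t`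
with `α' ≤ γ`; `𝒰`-almost all `n` are good. If `n` is good and `R : ℕ`, then for `𝒰`-almost all
`b`: for all `t` and `α ∈ E b t` with `∑ i, α i ≤ R` there is `α' ∈ E n t` with `α' ≤ α` (the
finitely many `α` with `∑ α ≤ R` which are not in `I t` are not in `E b t` for `𝒰`-almost all
`b`). Choose recursively `φ 0 < φ 1 < ...` good, such that `φ (m + 1)` has this property for
all `n = φ a`, `a ≤ m`, and all `R ≤ m` (members of `𝒰` are infinite).
-/

open Finset Filter Topology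

namespace Pool.Agent.Helper98.Germ

/-- Dickson: a predicate has finitely many elements below all others -/
private theorem dickson {k : ℕ} (I : (Fin k → ℕ) → Prop) :
    ∃ G : Finset (Fin k → ℕ), (∀ γ ∈ G, I γ) ∧ ∀ α, I α → ∃ γ ∈ G, γ ≤ α := by
  have hanti : IsAntichain (· ≤ ·) {x | Minimal I x} := setOfPred_minimal_antichain I
  have hfin : {x | Minimal I x}.Finite := WellQuasiOrderedLE.finite_of_isAntichain hanti
  refine ⟨hfin.toFinset, fun γ hγ => ?_, fun α hα => ?_⟩
  · rw [Set.Finite.mem_toFinset] at hγ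
    exact hγ.1
  · obtain ⟨m, h1, h2⟩ := exists_minimal_le_of_wellFoundedLT I α hα
    exact ⟨m, by rw [Set.Finite.mem_toFinset]; exact h2, h1⟩

/-- diagonal choice: `Q n R b` holds for almost all `b` if `n` is good -/
private theorem diag {Good : ℕ → Prop} {Q : ℕ → ℕ → ℕ → Prop} (U : Filter ℕ) [U.NeBot]
    (hU : ∀ N : ℕ, ∀ᶠ b in U, N < b) (hg : ∀ᶠ n in U, Good n)
    (hQ : ∀ n, Good n → ∀ R, ∀ᶠ b in U, Q n R b) :
    ∃ φ : ℕ → ℕ, StrictMono φ ∧ ∀ a R : ℕ, ∀ᶠ b in atTop, Q (φ a) R (φ b) := by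
  have h1 : ∀ N : ℕ, ∃ b, Good b ∧ N < b ∧ ∀ n ∈ Finset.range (N + 1), Good n →
      ∀ R ∈ Finset.range (N + 1), Q n R b := by
    intro N
    have h2 : ∀ᶠ b in U, ∀ n ∈ Finset.range (N + 1), Good n →
        ∀ R ∈ Finset.range (N + 1), Q n R b := by
      rw [Filter.eventually_all_finset]
      intro n _
      by_cases hn : Good n
      · have h3 : ∀ᶠ b in U, ∀ R ∈ Finset.range (N + 1), Q n R b := by
          rw [Filter.eventually_all_finset]
          exact fun R _ => hQ n hn R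
        exact h3.mono fun b hb _ => hb
      · exact Filter.Eventually.of_forall fun b h => absurd h hn
    obtain ⟨b, hb⟩ := (hg.and ((hU N).and h2)).exists
    exact ⟨b, hb.1, hb.2.1, hb.2.2⟩
  choose f hf1 hf2 hf3 using h1
  let φ : ℕ → ℕ := fun m => Nat.rec (f 0) (fun _ x => f x) m
  have hs : ∀ m, φ (m + 1) = f (φ m) := fun m => rfl
  have hmono : StrictMono φ := strictMono_nat_of_lt_succ fun m => by
    rw [hs]
    exact hf2 _
  have hgood : ∀ m, Good (φ m) := by
    intro m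
    cases m with
    | zero => exact hf1 0
    | succ m =>
      rw [hs]
      exact hf1 _
  refine ⟨φ, hmono, fun a R => ?_⟩
  rw [Filter.eventually_atTop]
  refine ⟨max a R + 1, fun b hb => ?_⟩
  obtain ⟨m, rfl⟩ : ∃ m, b = m + 1 := ⟨b - 1, by omega⟩
  have ha : a ≤ m := le_trans (le_max_left a R) (by omega)
  have hR : R ≤ m := le_trans (le_max_right a R) (by omega)
  rw [hs]
  refine hf3 (φ m) (φ a) ?_ (hgood a) R ?_
  · rw [Finset.mem_range]
    have := hmono.monotone ha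
    omega
  · rw [Finset.mem_range]
    have := hmono.id_le m
    simp only [id] at this
    omega

theorem exists_setlim {k P : ℕ} (E : ℕ → Fin P → Finset (Fin k → ℕ)) :
    ∃ φ : ℕ → ℕ, StrictMono φ ∧ ∀ (a R : ℕ), ∀ᶠ b in atTop, ∀ t, ∀ α ∈ E (φ b) t,
      ∑ i, α i ≤ R → ∃ α' ∈ E (φ a) t, ∀ i, α' i ≤ α i := by
  classical
  set U : Ultrafilter ℕ := hyperfilter ℕ with hUdef
  have hex : ∀ t : Fin P, ∃ G : Finset (Fin k → ℕ),
      (∀ γ ∈ G, ∀ᶠ n in (U : Filter ℕ), ∃ α' ∈ E n t, α' ≤ γ) ∧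
      ∀ α, (∀ᶠ n in (U : Filter ℕ), ∃ α' ∈ E n t, α' ≤ α) → ∃ γ ∈ G, γ ≤ α := fun t =>
    dickson (fun α => ∀ᶠ n in (U : Filter ℕ), ∃ α' ∈ E n t, α' ≤ α)
  choose G hG1 hG2 using hex
  refine diag
    (Good := fun n => ∀ t, ∀ γ ∈ G t, ∃ α' ∈ E n t, α' ≤ γ)
    (Q := fun n R b => ∀ t, ∀ α ∈ E b t, ∑ i, α i ≤ R → ∃ α' ∈ E n t, ∀ i, α' i ≤ α i)
    (U : Filter ℕ) ?_ ?_ ?_
  · intro N
    have h3 : {b : ℕ | N < b}ᶜ.Finite := by
      refine (Set.finite_Iic N).subset fun b hb => ?_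
      simp only [Set.mem_compl_iff, Set.mem_ofPred_eq, not_lt] at hb
      exact hb
    have := compl_mem_hyperfilter_of_finite h3
    rw [compl_compl] at this
    exact this
  · rw [Filter.eventually_all]
    intro t
    rw [Filter.eventually_all_finset]
    exact fun γ hγ => hG1 t γ hγ
  · intro n hn R
    rw [Filter.eventually_all]
    intro t
    have h3 : ∀ᶠ b in (U : Filter ℕ), ∀ α ∈ Finset.Iic (fun _ : Fin k => R),
        α ∈ E b t → ∃ α' ∈ E n t, ∀ i, α' i ≤ α i := by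
      rw [Filter.eventually_all_finset]
      intro α _
      by_cases hα : ∀ᶠ m in (U : Filter ℕ), ∃ α' ∈ E m t, α' ≤ α
      · obtain ⟨γ, hγ, hle⟩ := hG2 t α hα
        obtain ⟨α', h4, h5⟩ := hn t γ hγ
        exact Filter.Eventually.of_forall fun b _ => ⟨α', h4, fun i => (h5.trans hle) i⟩
      · have h6 : ∀ᶠ m in (U : Filter ℕ), ¬ ∃ α' ∈ E m t, α' ≤ α :=
          Ultrafilter.eventually_not.2 hα
        exact h6.mono fun b hb hmem => absurd ⟨α, hmem, le_rfl⟩ hb
    refine h3.mono fun b hb α hα hsum => hb α ?_ hα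
    rw [Finset.mem_Iic]
    intro i
    exact (Finset.single_le_sum (fun j _ => Nat.zero_le (α j)) (Finset.mem_univ i)).trans hsum

end Pool.Agent.Helper98.Germ
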