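import Pool.Agent.Helper98.Germ.Val
import Pool.Agent.Helper98.Germ.SetLim

/-!
# The limit argument for germs

Here `total b c E μ = ∑ i, μ i * (1 - b i) - ∑ t, c t * val (E t) μ` (the equation is one of the
`t`, with coefficient `1`). A member `a` of a subsequence is approximated by later members `b`
(`exists_limit`, `exists_setlim`, `hsel`); the log discrepancy of `b` near `l a` is at most the one
of `a` plus a small error.
-/

open Finset Filter Topology

namespace Pool.Agent.Helper98.Germ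

open Pool.Agent.Helper31.Toric (intVec coefGroup exists_limit)

/-- The log discrepancy, with the equation as one of the `t`. -/
noncomputable def total {k P : ℕ} (b : Fin k → ℝ) (c : Fin P → ℝ)
    (E : Fin P → Finset (Fin k → ℕ)) (μ : Fin k → ℝ) : ℝ :=
  ∑ i, μ i * (1 - b i) - ∑ t, c t * val (E t) μ

private theorem core_min {m : ℕ} (f : Fin m → ℝ) : ∃ c : ℝ, 0 < c ∧ ∀ t, 0 < f t → c ≤ f t := by
  classical
  rcases (univ.filter fun t => 0 < f t).eq_empty_or_nonempty with h | h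
  · refine ⟨1, one_pos, fun t ht => ?_⟩
    have h1 : t ∈ (univ.filter fun t => 0 < f t) := Finset.mem_filter.2 ⟨Finset.mem_univ _, ht⟩
    rw [h] at h1
    exact absurd h1 (Finset.notMem_empty _)
  · obtain ⟨t₀, h0, h1⟩ := Finset.exists_min_image _ f h
    exact ⟨f t₀, (Finset.mem_filter.1 h0).2, fun t ht =>
      h1 t (Finset.mem_filter.2 ⟨Finset.mem_univ _, ht⟩)⟩

private theorem continuous_val {k : ℕ} (E : Finset (Fin k → ℕ)) : Continuous (val E) := by
  by_cases h : E.Nonempty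
  · have h1 : val E = fun μ => E.inf' h (fun α => dot α μ) := by
      funext μ
      unfold val
      rw [dif_pos h]
    rw [h1]
    apply Continuous.finset_inf'_apply
    intro α _
    unfold dot
    exact continuous_finsetSum _ fun i _ => continuous_const.mul (continuous_apply i)
  · have h1 : val E = fun _ => 0 := by
      funext μ
      unfold val
      rw [dif_neg h]
    rw [h1]
    exact continuous_const

private theorem dot_nonneg {k : ℕ} (α : Fin k → ℕ) {μ : Fin k → ℝ} (hμ : ∀ i, 0 ≤ μ i) :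
    0 ≤ dot α μ :=
  Finset.sum_nonneg fun i _ => mul_nonneg (Nat.cast_nonneg _) (hμ i)

private theorem val_nonneg {k : ℕ} {E : Finset (Fin k → ℕ)} (hE : E.Nonempty) {μ : Fin k → ℝ}
    (hμ : ∀ i, 0 ≤ μ i) : 0 ≤ val E μ := by
  obtain ⟨α, _, h⟩ := exists_val_eq hE μ
  rw [← h]
  exact dot_nonneg α hμ

private theorem dot_mono {k : ℕ} {α α' : Fin k → ℕ} (h : ∀ i, α' i ≤ α i) {μ : Fin k → ℝ}
    (hμ : ∀ i, 0 ≤ μ i) : dot α' μ ≤ dot α μ :=
  Finset.sum_le_sum fun i _ =>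
    mul_le_mul_of_nonneg_right (by exact_mod_cast h i) (hμ i)

private theorem dot_ge {k : ℕ} (α : Fin k → ℕ) {μ : Fin k → ℝ} {x : ℝ} (hμ : ∀ i, x ≤ μ i) :
    ((∑ i, α i : ℕ) : ℝ) * x ≤ dot α μ := by
  unfold dot
  push_cast
  rw [Finset.sum_mul]
  exact Finset.sum_le_sum fun i _ => mul_le_mul_of_nonneg_left (hμ i) (Nat.cast_nonneg _)

/-- the comparison of the log discrepancies -/
private theorem core_step {k P : ℕ} {B G μ : Fin k → ℝ} {C G' : Fin P → ℝ}
    {Ea Eb : Fin P → Finset (Fin k → ℕ)} {lam c₁ δ Λ : ℝ} {R : ℕ}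
    (hEa : ∀ t, (Ea t).Nonempty) (hEb : ∀ t, (Eb t).Nonempty)
    (hG0 : ∀ i, 0 ≤ G i) (hC0 : ∀ t, 0 ≤ C t) (hG0' : ∀ t, 0 ≤ G' t)
    (hlam : 0 < lam) (hμ : ∀ i, lam / 2 ≤ μ i) (hc₁ : 0 < c₁) (hc : ∀ t, 0 < C t → c₁ ≤ C t)
    (hδ : 0 < δ) (hδc : δ ≤ c₁ / 2) (hΛ : ∑ i, μ i ≤ Λ) (hR : 4 * Λ / (c₁ * lam) ≤ R)
    (hB : ∀ i, B i ≤ G i + δ) (hC : ∀ t, C t ≤ G' t + δ)
    (hset : ∀ t, ∀ α ∈ Eb t, ∑ i, α i ≤ R → ∃ α' ∈ Ea t, ∀ i, α' i ≤ α i)
    (hpos : 0 ≤ total G G' Eb μ) :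
    total G G' Eb μ ≤ total B C Ea μ + δ * (∑ i, μ i + ∑ t, val (Ea t) μ) := by
  have hμ0 : ∀ i, 0 ≤ μ i := fun i => by
    have := hμ i
    linarith
  have h1 : ∑ i, μ i * (1 - G i) ≤ ∑ i, μ i * (1 - B i) + δ * ∑ i, μ i := by
    rw [Finset.mul_sum, ← Finset.sum_add_distrib]
    refine Finset.sum_le_sum fun i _ => ?_
    have h2 := mul_le_mul_of_nonneg_left (hB i) (hμ0 i)
    linarith
  have h2 : ∑ i, μ i * (1 - G i) ≤ ∑ i, μ i := by
    refine Finset.sum_le_sum fun i _ => ?_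
    have h3 := mul_nonneg (hμ0 i) (hG0 i)
    linarith
  have key : ∀ t, C t * val (Ea t) μ ≤ G' t * val (Eb t) μ + δ * val (Ea t) μ := by
    intro t
    have hva := val_nonneg (hEa t) hμ0
    have hvb := val_nonneg (hEb t) hμ0
    rcases (hC0 t).eq_or_lt with h0 | h0
    · rw [← h0, zero_mul]
      have h3 := mul_nonneg (hG0' t) hvb
      have h4 := mul_nonneg hδ.le hva
      linarith
    · have hct := hc t h0
      have hG : c₁ / 2 ≤ G' t := by
        have := hC t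
        linarith
      have h3 : G' t * val (Eb t) μ ≤ Λ := by
        have h4 : G' t * val (Eb t) μ ≤ ∑ t, G' t * val (Eb t) μ :=
          Finset.single_le_sum (f := fun t => G' t * val (Eb t) μ)
            (fun t _ => mul_nonneg (hG0' t) (val_nonneg (hEb t) hμ0)) (Finset.mem_univ t)
        unfold total at hpos
        linarith
      obtain ⟨α, hα, hval⟩ := exists_val_eq (hEb t) μ
      have h5 : ((∑ i, α i : ℕ) : ℝ) * (lam / 2) ≤ val (Eb t) μ := by
        rw [← hval]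
        exact dot_ge α hμ
      have h6 : c₁ / 2 * val (Eb t) μ ≤ Λ :=
        (mul_le_mul_of_nonneg_right hG hvb).trans h3
      have h7 : ((∑ i, α i : ℕ) : ℝ) ≤ R := by
        refine le_trans ?_ hR
        rw [le_div_iff₀ (by positivity)]
        have h8 := mul_le_mul_of_nonneg_left h5 (show 0 ≤ c₁ / 2 by positivity)
        nlinarith
      obtain ⟨α', hα', hle⟩ := hset t α hα (by exact_mod_cast h7)
      have h8 : val (Ea t) μ ≤ val (Eb t) μ := by
        rw [← hval]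
        exact (val_le hα' μ).trans (dot_mono hle hμ0)
      have h9 := mul_le_mul_of_nonneg_right (hC t) hva
      have h10 := mul_le_mul_of_nonneg_left h8 (hG0' t)
      linarith
  have h3 : ∑ t, C t * val (Ea t) μ ≤
      ∑ t, G' t * val (Eb t) μ + δ * ∑ t, val (Ea t) μ := by
    rw [Finset.mul_sum, ← Finset.sum_add_distrib]
    exact Finset.sum_le_sum fun t _ => key t
  unfold total
  rw [mul_add]
  linarith

private theorem continuous_total {k P : ℕ} (b : Fin k → ℝ) (c : Fin P → ℝ)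
    (E : Fin P → Finset (Fin k → ℕ)) : Continuous (total b c E) := by
  unfold total
  exact (continuous_finsetSum _ fun i _ => (continuous_apply i).mul continuous_const).sub
    (continuous_finsetSum _ fun t _ => continuous_const.mul (continuous_val (E t)))

theorem core {k P : ℕ} (ε : ℕ → ℝ) (B : ℕ → Fin k → ℝ) (G : ℕ → ℕ → Fin k → ℝ)
    (C : ℕ → Fin P → ℝ) (G' : ℕ → ℕ → Fin P → ℝ) (E : ℕ → Fin P → Finset (Fin k → ℕ))
    (H : ℕ → AddSubgroup (EuclideanSpace ℝ (Fin k))) (hE : ∀ n t, (E n t).Nonempty)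
    (hε : ∀ n, 0 ≤ ε n) (hG0 : ∀ a n i, 0 ≤ G a n i) (hC0 : ∀ n t, 0 ≤ C n t)
    (hG0' : ∀ a n t, 0 ≤ G' a n t) (hH : ∀ n, ∀ z : Fin k → ℤ, intVec z ∈ H n)
    (l : ℕ → Fin k → ℝ) (hl : ∀ n i, 0 < l n i)
    (hlH : ∀ n, (WithLp.toLp 2 (l n) : EuclideanSpace ℝ (Fin k)) ∈ H n)
    (hlt : ∀ n, total (B n) (C n) (E n) (l n) < ε n)
    (hge : ∀ a j, a < j → ∀ μ ∈ H j, (∀ i, 0 < μ i) →
      ε j ≤ total (G a j) (G' a j) (E j) (fun i => μ i))
    (hsel : ∀ φ : ℕ → ℕ, StrictMono φ → ∃ h : ℕ → ℕ, StrictMono h ∧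
      (∀ a b, a ≤ b → ε (φ (h a)) ≤ ε (φ (h b))) ∧
      ∀ a, ∀ δ : ℝ, 0 < δ → ∀ᶠ b in atTop,
        (∀ i, B (φ (h a)) i ≤ G (φ (h a)) (φ (h b)) i + δ) ∧
        ∀ t, C (φ (h a)) t ≤ G' (φ (h a)) (φ (h b)) t + δ) : False := by
  obtain ⟨φ, hφ, hset⟩ := exists_setlim E
  obtain ⟨h, hh, hmono, hev⟩ := hsel φ hφ
  obtain ⟨a, ha⟩ := exists_limit (fun n => H (φ (h n))) (fun n => hH (φ (h n)))
  obtain ⟨lam, hlam, hlam'⟩ := core_min (l (φ (h a)))
  obtain ⟨c₁, hc₁, hc⟩ := core_min (C (φ (h a)))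
  obtain ⟨R, hR⟩ := exists_nat_ge (4 * (∑ i, (l (φ (h a)) i + 1)) / (c₁ * lam))
  have hcont : Continuous fun p : ℝ × (Fin k → ℝ) =>
      total (B (φ (h a))) (C (φ (h a))) (E (φ (h a))) p.2 +
        p.1 * (∑ i, p.2 i + ∑ t, val (E (φ (h a)) t) p.2) := by
    refine ((continuous_total _ _ _).comp continuous_snd).add (continuous_fst.mul
      (Continuous.add ?_ ?_))
    · exact continuous_finsetSum _ fun i _ => (continuous_apply i).comp continuous_snd
    · exact continuous_finsetSum _ fun t _ => (continuous_val _).comp continuous_snd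
  have hnear : ∀ᶠ p : ℝ × (Fin k → ℝ) in 𝓝 ((0 : ℝ), l (φ (h a))),
      total (B (φ (h a))) (C (φ (h a))) (E (φ (h a))) p.2 +
        p.1 * (∑ i, p.2 i + ∑ t, val (E (φ (h a)) t) p.2) < ε (φ (h a)) := by
    refine hcont.continuousAt.eventually_lt continuousAt_const ?_
    simp only [zero_mul, add_zero]
    exact hlt _
  rw [Metric.eventually_nhds_iff] at hnear
  obtain ⟨δ₀, hδ₀, hnear⟩ := hnear
  obtain ⟨δ, hδ, hδ1, hδ2, hδ3, hδ4⟩ : ∃ δ : ℝ, 0 < δ ∧ δ < δ₀ ∧ δ ≤ lam / 2 ∧ δ ≤ 1 ∧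
      δ ≤ c₁ / 2 := by
    refine ⟨min (min (δ₀ / 2) (lam / 2)) (min 1 (c₁ / 2)), ?_, ?_, ?_, ?_, ?_⟩
    · exact lt_min (lt_min (by positivity) (by positivity)) (lt_min one_pos (by positivity))
    · exact lt_of_le_of_lt ((min_le_left _ _).trans (min_le_left _ _)) (by linarith)
    · exact (min_le_left _ _).trans (min_le_right _ _)
    · exact (min_le_right _ _).trans (min_le_left _ _)
    · exact (min_le_right _ _).trans (min_le_right _ _)
  obtain ⟨b, ⟨μ, hμH, hμδ⟩, hb, ⟨hB, hC⟩, hs⟩ := ((ha _ (hlH (φ (h a))) δ hδ).and_eventually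
    ((eventually_gt_atTop a).and ((hev a δ hδ).and
      (hh.tendsto_atTop.eventually (hset (h a) R))))).exists
  have hμl : ∀ i, |μ i - l (φ (h a)) i| < δ := by
    intro i
    refine lt_of_le_of_lt ?_ hμδ
    have := PiLp.norm_apply_le (μ - WithLp.toLp 2 (l (φ (h a)))) i
    rwa [PiLp.sub_apply, Real.norm_eq_abs] at this
  have hμ2 : ∀ i, lam / 2 ≤ μ i := by
    intro i
    have h3 := hμl i
    rw [abs_lt] at h3
    have h5 := hlam' i (hl _ i)
    linarith [h3.1]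
  have hμ0 : ∀ i, 0 < μ i := fun i => lt_of_lt_of_le (by positivity) (hμ2 i)
  have hge' := hge _ _ (hφ (hh hb)) μ hμH hμ0
  have hstep := core_step (μ := fun i => μ i) (hE (φ (h a))) (hE (φ (h b)))
    (hG0 (φ (h a)) (φ (h b))) (hC0 (φ (h a))) (hG0' (φ (h a)) (φ (h b))) hlam hμ2 hc₁ hc hδ hδ4
    (Λ := ∑ i, (l (φ (h a)) i + 1)) (by
      refine Finset.sum_le_sum fun i _ => ?_
      have h3 := hμl i
      rw [abs_lt] at h3
      linarith [h3.2]) hR hB hC hs ((hε _).trans hge')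
  have hlast := hnear (y := (δ, fun i => μ i)) (by
    rw [Prod.dist_eq]
    refine max_lt ?_ ?_
    · change dist δ 0 < δ₀
      rw [Real.dist_eq, sub_zero, abs_of_pos hδ]
      exact hδ1
    · change dist (fun i => μ i) (l (φ (h a))) < δ₀
      rw [dist_pi_lt_iff hδ₀]
      intro i
      rw [Real.dist_eq]
      exact (hμl i).trans hδ1)
  have hm := hmono a b hb.le
  dsimp only at hlast
  linarith

end Pool.Agent.Helper98.Germ
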