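import Pool.Agent.Helper98.Germ.Engine
import Pool.Agent.Helper31.Toric.Decomp

/-!
# Decomposed complements for germs
-/

open Finset Filter Topology

namespace Pool.Agent.Helper98.Germ

open Pool.Agent.Helper31.Toric (rnd le_rnd rnd_le rnd_finite cell_le mono_subseq_finset)

private theorem dcc_insert {Γ : Set ℝ} (hΓ : DCC Γ) : DCC (insert 0 Γ) := by
  rintro ⟨f, hf, hfm⟩
  by_cases h : ∃ m, f m = 0
  · obtain ⟨m, hm⟩ := h
    refine hΓ ⟨fun k => f (k + (m + 1)), fun a b hab => hf (by omega), fun k => ?_⟩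
    rcases hfm (k + (m + 1)) with h1 | h1
    · have h2 : f (k + (m + 1)) < f m := hf (by omega)
      exact absurd h1 (by rw [hm] at h2; exact h2.ne)
    · exact h1
  · push Not at h
    refine hΓ ⟨f, hf, fun k => ?_⟩
    rcases hfm k with h1 | h1
    · exact absurd h1 (h k)
    · exact h1

private theorem pos_lower {Γ : Set ℝ} (hΓ : DCC Γ) : ∃ c : ℝ, 0 < c ∧ ∀ x ∈ Γ, 0 < x → c ≤ x := by
  by_cases h : ∃ x ∈ Γ, 0 < x
  · obtain ⟨x, _, hx2, hx3⟩ := Pool.Agent.Helper31.Toric.DCC.exists_min hΓ (fun x => 0 < x) h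
    exact ⟨x, hx2, hx3⟩
  · push Not at h
    exact ⟨1, one_pos, fun x hx hx0 => absurd (h x hx) (not_le.2 hx0)⟩

private theorem rnd_zero {Γ : Set ℝ} (h0 : (0 : ℝ) ∈ Γ) {N : ℕ} (hN : 0 < N) : rnd Γ N 0 = 0 := by
  refine le_antisymm (rnd_le h0 fun x _ hx => ?_) (le_rnd hN h0)
  have hN' : (0 : ℝ) < N := by exact_mod_cast hN
  rw [zero_mul, Int.ceil_zero] at hx
  have h1 := Int.le_ceil (x * N)
  rw [hx, Int.cast_zero] at h1
  by_contra hcon
  push Not at hcon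
  have := mul_pos hcon hN'
  linarith

/-- for fine partitions the rounded values are close to later values -/
private theorem sel {Γ : Set ℝ} (hΓ : DCC Γ) {s : ℕ → ℝ} (hs : ∀ m, s m ∈ Γ) (hmono : Monotone s)
    (hb : ∀ m, s m ≤ 1) : ∃ M : ℕ, ∀ N : ℕ, M < N → ∀ a, ∀ δ : ℝ, 0 < δ →
      ∀ᶠ m in atTop, rnd Γ N (s a) ≤ s m + δ := by
  have hbdd : BddAbove (Set.range s) := ⟨1, by rintro _ ⟨m, rfl⟩; exact hb m⟩
  obtain ⟨β, hβ⟩ : ∃ β, β = ⨆ m, s m := ⟨_, rfl⟩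
  have hlim : Tendsto s atTop (𝓝 β) := by
    rw [hβ]
    exact tendsto_atTop_ciSup hmono hbdd
  have hle : ∀ m, s m ≤ β := fun m => by
    rw [hβ]
    exact le_ciSup hbdd m
  obtain ⟨η, hη, hηb⟩ : ∃ η : ℝ, 0 < η ∧ ∀ x ∈ Γ, x < β + η → x ≤ β := by
    by_cases hex : ∃ x ∈ Γ, β < x
    · obtain ⟨x, _, hx2, hx3⟩ := Pool.Agent.Helper31.Toric.DCC.exists_min hΓ (fun x => β < x) hex
      refine ⟨x - β, by linarith, fun z hz hlt => ?_⟩
      by_contra hcon
      push Not at hcon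
      have := hx3 z hz hcon
      linarith
    · push Not at hex
      exact ⟨1, one_pos, fun x hx _ => hex x hx⟩
  obtain ⟨M, hM⟩ := exists_nat_gt (1 / η)
  refine ⟨M, fun N hN a δ hδ => ?_⟩
  have hNpos : 0 < N := by omega
  have hr : rnd Γ N (s a) ≤ β := by
    refine rnd_le (hs a) fun x hx hcell => hηb x hx ?_
    have h1 := cell_le hNpos hcell
    have h2 := hle a
    have h3 : 1 / (N : ℝ) < η := by
      have h4 : 1 / η < (N : ℝ) := hM.trans (by exact_mod_cast hN)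
      rw [div_lt_iff₀ hη] at h4
      have h6 : (0 : ℝ) < N := by exact_mod_cast hNpos
      rw [div_lt_iff₀ h6]
      linarith
    linarith
  filter_upwards [Metric.tendsto_nhds.mp hlim δ hδ] with m hm
  rw [Real.dist_eq, abs_lt] at hm
  linarith [hm.1]

private theorem sel_fin {Γ : Set ℝ} (hΓ : DCC Γ) {K : ℕ} {s : Fin K → ℕ → ℝ}
    (hs : ∀ i m, s i m ∈ Γ) (hmono : ∀ i, Monotone (s i)) (hb : ∀ i m, s i m ≤ 1) :
    ∃ M : ℕ, ∀ N : ℕ, M < N → ∀ a, ∀ δ : ℝ, 0 < δ →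
      ∀ᶠ m in atTop, ∀ i, rnd Γ N (s i a) ≤ s i m + δ := by
  choose M hM using fun i => sel hΓ (hs i) (hmono i) (hb i)
  refine ⟨Finset.univ.sup M, fun N hN a δ hδ => ?_⟩
  rw [Filter.eventually_all]
  intro i
  exact hM i N (lt_of_le_of_lt (Finset.le_sup (Finset.mem_univ i)) hN) a δ hδ

theorem exists_decomposed (n : ℕ) {E Γ : Set ℝ} (hE : DCC E) (hΓ : DCC Γ) :
    Decomposed n E Γ := by
  classical
  by_contra hcon
  unfold Decomposed at hcon
  push Not at hcon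
  obtain ⟨Γ', hΓ'⟩ : ∃ Γ' : Set ℝ, Γ' = insert 0 Γ := ⟨_, rfl⟩
  have hD : DCC Γ' := by rw [hΓ']; exact dcc_insert hΓ
  have h0' : (0 : ℝ) ∈ Γ' := by rw [hΓ']; exact Set.mem_insert _ _
  have hin : ∀ x : ℝ, (x = 0 ∨ x ∈ Γ) → x ∈ Γ' := fun x hx => by rw [hΓ']; exact hx
  have hdata := fun m : ℕ => hcon _ (rnd_finite Γ' (m + 1))
  choose d e r p ε v A C b b' hde hdat hεE hε0 hb hb' hlc hfail using hdata
  -- a constant number of equations
  obtain ⟨e₀, he₀⟩ : ∃ e₀ : ℕ, ∃ᶠ m in atTop, e m = e₀ := by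
    by_contra hcon'
    push Not at hcon'
    have h3 : ∀ᶠ m in atTop, ∀ q ∈ Finset.range 2, ¬ e m = q := by
      rw [Filter.eventually_all_finset]
      intro q _
      exact hcon' q
    obtain ⟨m, hm⟩ := h3.exists
    exact hm (e m) (Finset.mem_range.mpr (Nat.lt_succ_of_le (hdat m).1)) rfl
  obtain ⟨θ, hθ, hθe⟩ := Filter.extraction_of_frequently_atTop he₀
  have key : ∀ m, ∃ (r p : ℕ) (ε : ℝ) (v : Fin r → Fin (n + e₀) → ℤ)
      (A : Fin e₀ → Finset (Fin (n + e₀) → ℤ)) (C : Fin p → Finset (Fin (n + e₀) → ℤ))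
      (b : Fin r → ℝ) (b' : Fin p → ℝ), IsData v A C ∧ ε ∈ E ∧ 0 ≤ ε ∧
      (∀ i, b i ∈ Γ' ∧ 0 ≤ b i) ∧ (∀ j, b' j ∈ Γ' ∧ 0 ≤ b' j) ∧ IsLC ε v A C b b' ∧
      ¬ IsLC ε v A C (fun i => rnd Γ' (θ m + 1) (b i)) (fun j => rnd Γ' (θ m + 1) (b' j)) := by
    intro m
    have h1 := hde (θ m)
    have h2 := hθe m
    have h3 := hdat (θ m)
    have h4 := hlc (θ m)
    have hnn := hε0 (θ m)
    have h5 : ¬ IsLC (ε (θ m)) (v (θ m)) (A (θ m)) (C (θ m))
        (fun i => rnd Γ' (θ m + 1) (b (θ m) i)) (fun j => rnd Γ' (θ m + 1) (b' (θ m) j)) := by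
      refine hfail (θ m) _ _ (fun i => ?_) (fun j => ?_)
      · have h6 := hin _ (hb (θ m) i).1
        have h7 := IsLC.coef_le h3 h4 i
        exact ⟨le_rnd (Nat.succ_pos _) h6, _, h6, (hb (θ m) i).2, by linarith, rfl⟩
      · have h6 := hin _ (hb' (θ m) j).1
        have h7 := h4.1 j
        exact ⟨le_rnd (Nat.succ_pos _) h6, _, h6, (hb' (θ m) j).2, by linarith, rfl⟩
    have h8 : ∀ i, b (θ m) i ∈ Γ' ∧ 0 ≤ b (θ m) i := fun i => ⟨hin _ (hb (θ m) i).1, (hb (θ m) i).2⟩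
    have h9 : ∀ j, b' (θ m) j ∈ Γ' ∧ 0 ≤ b' (θ m) j :=
      fun j => ⟨hin _ (hb' (θ m) j).1, (hb' (θ m) j).2⟩
    have h10 := hεE (θ m)
    generalize v (θ m) = v' at *
    generalize A (θ m) = A' at *
    generalize C (θ m) = C' at *
    generalize d (θ m) = d' at *
    generalize e (θ m) = e' at *
    subst h2
    subst h1
    exact ⟨_, _, _, v', A', C', _, _, h3, h10, hnn, h8, h9, h4, h5⟩
  clear hde hdat hεE hε0 hb hb' hlc hfail hθe he₀
  clear v A C b b' ε r p d e hcon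
  choose r p ε v A C b b' hdat hεE hε0 hb hb' hlc hnlc using key
  obtain ⟨c₀, hc₀, hc₀'⟩ := pos_lower hD
  have hb1 : ∀ m i, b m i ≤ 1 := fun m i => by
    have h1 := IsLC.coef_le (hdat m) (hlc m) i
    have h2 := hε0 m
    linarith
  have hb1' : ∀ m j, b' m j ≤ 1 := fun m j => by
    have h1 := (hlc m).1 j
    have h2 := hε0 m
    linarith
  refine Fam.false (d := n + e₀) (e := e₀)
    { r := r, p := p, v := v, A := A, C := C, ε := ε
      B := fun m i => rnd Γ' (θ m + 1) (b m i)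
      B' := fun m j => rnd Γ' (θ m + 1) (b' m j)
      G := fun _ m => b m
      G' := fun _ m => b' m
      Z := fun m j => b' m j = 0
      c₀ := c₀
      data := hdat
      hε := hε0
      hB0 := fun m i => (hb m i).2.trans (le_rnd (Nat.succ_pos _) (hb m i).1)
      hB0' := fun m j => (hb' m j).2.trans (le_rnd (Nat.succ_pos _) (hb' m j).1)
      hG0 := fun _ m i => (hb m i).2
      hG0' := fun _ m j => (hb' m j).2
      hc₀ := hc₀
      hZB := fun m j hj => by rw [hj]; exact rnd_zero h0' (Nat.succ_pos _)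
      hZG := fun _ m j hj => hc₀' _ (hb' m j).1 (lt_of_le_of_ne (hb' m j).2 (Ne.symm hj))
      hnot := hnlc
      hyes := fun _ m _ => hlc m
      hsel := ?_ }
  intro K P φ hφ f g
  obtain ⟨h₀, hh₀, hm₀⟩ := mono_subseq_finset (ι := Unit ⊕ (Fin K ⊕ Fin P)) Finset.univ
    (Sum.elim (fun _ m => ε (φ m)) (Sum.elim (fun i m => b (φ m) (f m i))
      (fun j m => b' (φ m) (g m j))))
    (Sum.elim (fun _ => E) (fun _ => Γ'))
    (by
      rintro (i | i)
      · exact hE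
      · exact hD)
    (by
      rintro (i | i | i) m
      · exact hεE _
      · exact (hb _ _).1
      · exact (hb' _ _).1)
  have mε : Monotone ((fun m => ε (φ m)) ∘ h₀) := hm₀ (Sum.inl ()) (Finset.mem_univ _)
  have mb : ∀ i, Monotone ((fun m => b (φ m) (f m i)) ∘ h₀) := fun i =>
    hm₀ (Sum.inr (Sum.inl i)) (Finset.mem_univ _)
  have mb' : ∀ j, Monotone ((fun m => b' (φ m) (g m j)) ∘ h₀) := fun j =>
    hm₀ (Sum.inr (Sum.inr j)) (Finset.mem_univ _)
  obtain ⟨M, hM⟩ := sel_fin hD (s := fun i => (fun m => b (φ m) (f m i)) ∘ h₀)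
    (fun i m => (hb _ _).1) mb (fun i m => hb1 _ _)
  obtain ⟨M', hM'⟩ := sel_fin hD (s := fun j => (fun m => b' (φ m) (g m j)) ∘ h₀)
    (fun i m => (hb' _ _).1) mb' (fun i m => hb1' _ _)
  refine ⟨fun a => h₀ (a + (M + M')), fun a c hac => hh₀ (by omega),
    fun a c hac => mε (by omega), fun a δ hδ => ?_⟩
  have hN : M + M' < θ (φ (h₀ (a + (M + M')))) + 1 := by
    have h1 : a + (M + M') ≤ h₀ (a + (M + M')) := hh₀.le_apply
    have h2 : h₀ (a + (M + M')) ≤ φ (h₀ (a + (M + M'))) := hφ.le_apply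
    have h3 : φ (h₀ (a + (M + M'))) ≤ θ (φ (h₀ (a + (M + M')))) := hθ.le_apply
    omega
  have ht : Tendsto (fun j : ℕ => j + (M + M')) atTop atTop := tendsto_add_atTop_nat (M + M')
  filter_upwards [ht.eventually (hM (θ (φ (h₀ (a + (M + M')))) + 1) (by omega)
    (a + (M + M')) δ hδ), ht.eventually (hM' (θ (φ (h₀ (a + (M + M')))) + 1) (by omega)
    (a + (M + M')) δ hδ)] with c hc1 hc2
  exact ⟨hc1, hc2⟩

end Pool.Agent.Helper98.Germ
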