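import Pool.Agent.Helper98.Germ.Statement
import Pool.Agent.Helper31.Toric.Main

/-!
# Non-degenerate germs: working definitions
-/

open Finset Filter Topology

namespace Pool.Agent.Helper98.Germ

open Pool.Agent.Helper31.Toric (intVec coefGroup)

/-- The value of the exponent vector `α` at `μ`. -/
def dot {k : ℕ} (α : Fin k → ℕ) (μ : Fin k → ℝ) : ℝ := ∑ i, (α i : ℝ) * μ i

/-- The order at `μ` of a function with exponent vectors `E`. -/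
noncomputable def val {k : ℕ} (E : Finset (Fin k → ℕ)) (μ : Fin k → ℝ) : ℝ :=
  if h : E.Nonempty then E.inf' h (fun α => dot α μ) else 0

/-- The exponent vectors with respect to the rays `v' i`. -/
noncomputable def expo {k d : ℕ} (v' : Fin k → Fin d → ℤ) (A : Finset (Fin d → ℤ)) :
    Finset (Fin k → ℕ) :=
  open Classical in A.image (fun w i => (pair w (v' i) - mn A (v' i)).toNat)

/-- The exponent vectors of the equation; `{0}` if there is no equation. -/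
noncomputable def eqE {k d e : ℕ} (v' : Fin k → Fin d → ℤ) (A : Fin e → Finset (Fin d → ℤ)) :
    Finset (Fin k → ℕ) :=
  if h : 0 < e then expo v' (A ⟨0, h⟩) else {0}

/-- The log discrepancy in terms of exponent vectors. -/
noncomputable def cost {k P : ℕ} (b : Fin k → ℝ) (c : Fin P → ℝ) (E₀ : Finset (Fin k → ℕ))
    (E : Fin P → Finset (Fin k → ℕ)) (μ : Fin k → ℝ) : ℝ :=
  ∑ i, μ i * (1 - b i) - val E₀ μ - ∑ t, c t * val (E t) μ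

/-- The lattice vector with coefficients `τ` is over the germ. -/
def TropAt {r d e k : ℕ} (v : Fin r → Fin d → ℤ) (A : Fin e → Finset (Fin d → ℤ))
    (v' : Fin k → Fin d → ℤ) (τ : Fin k → ℝ) : Prop :=
  ∃ y : Fin d → ℤ, (∀ j, (y j : ℝ) = ∑ i, τ i * (v' i j : ℝ)) ∧ ∀ h, Trop v (A h) y

/-- The properties which are used in the inversion of adjunction. `T` is the predicate of being
over the germ. -/
structure PAx {k P : ℕ} (H : AddSubgroup (EuclideanSpace ℝ (Fin k))) (E₀ : Finset (Fin k → ℕ))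
    (E : Fin P → Finset (Fin k → ℕ)) (T : (Fin k → ℝ) → Prop) : Prop where
  hH : ∀ z : Fin k → ℤ, intVec z ∈ H
  ne₀ : E₀.Nonempty
  ne : ∀ t, (E t).Nonempty
  int₀ : ∀ μ ∈ H, ∀ α ∈ E₀, ∀ α' ∈ E₀, ∃ z : ℤ, dot α (fun i => μ i) - dot α' (fun i => μ i) = z
  int : ∀ t, ∀ μ ∈ H, ∀ α ∈ E t, ∀ α' ∈ E t,
    ∃ z : ℤ, dot α (fun i => μ i) - dot α' (fun i => μ i) = z
  zero : ∀ i, ∃ α ∈ E₀, α i = 0
  trop : ∀ τ ∈ H, (∀ i, 0 ≤ τ i) → ∀ α ∈ E₀, ∀ α' ∈ E₀,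
    dot α (fun i => τ i) = val E₀ (fun i => τ i) →
    dot α' (fun i => τ i) = val E₀ (fun i => τ i) → (∃ i, 0 < τ i ∧ α i ≠ α' i) →
    T (fun i => τ i)
  notTrop : ∀ μ ∈ H, (∀ i, 0 < μ i) → ¬ T (fun i => μ i) → ∃ α ∈ E₀, α ≠ 0 ∧
    ∀ α' ∈ E₀, dot α' (fun i => μ i) = val E₀ (fun i => μ i) → α' = α

/-- A violating basic combination of the rays. -/
def Viol {r d e p : ℕ} (ε : ℝ) (v : Fin r → Fin d → ℤ) (A : Fin e → Finset (Fin d → ℤ))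
    (C : Fin p → Finset (Fin d → ℤ)) (b : Fin r → ℝ) (b' : Fin p → ℝ) : Prop :=
  ∃ (k : ℕ) (f : Fin k → Fin r) (l : Fin k → ℝ) (y : Fin d → ℤ), k ≤ d ∧ (∀ i, 0 < l i) ∧
    y ≠ 0 ∧ (∀ j, (y j : ℝ) = ∑ i, l i * (v (f i) j : ℝ)) ∧ (∀ h, Trop v (A h) y) ∧
    cost (fun i => b (f i)) b' (eqE (fun i => v (f i)) A)
      (fun t => expo (fun i => v (f i)) (C t)) l < ε

/-- A hypothetical counterexample: pairs which are not `ε`-lc at the level `B m, B' m`, but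
`ε`-lc at the levels `G a m, G' a m`, `a < m`. -/
structure Fam (d e : ℕ) where
  r : ℕ → ℕ
  p : ℕ → ℕ
  v : ∀ m, Fin (r m) → Fin d → ℤ
  A : ℕ → Fin e → Finset (Fin d → ℤ)
  C : ∀ m, Fin (p m) → Finset (Fin d → ℤ)
  ε : ℕ → ℝ
  B : ∀ m, Fin (r m) → ℝ
  B' : ∀ m, Fin (p m) → ℝ
  G : ℕ → ∀ m, Fin (r m) → ℝ
  G' : ℕ → ∀ m, Fin (p m) → ℝ
  Z : ∀ m, Fin (p m) → Prop
  c₀ : ℝ
  data : ∀ m, IsData (v m) (A m) (C m)
  hε : ∀ m, 0 ≤ ε m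
  hB0 : ∀ m i, 0 ≤ B m i
  hB0' : ∀ m i, 0 ≤ B' m i
  hG0 : ∀ a m i, 0 ≤ G a m i
  hG0' : ∀ a m i, 0 ≤ G' a m i
  hc₀ : 0 < c₀
  hZB : ∀ m i, Z m i → B' m i = 0
  hZG : ∀ a m i, ¬ Z m i → c₀ ≤ G' a m i
  hnot : ∀ m, ¬ IsLC (ε m) (v m) (A m) (C m) (B m) (B' m)
  hyes : ∀ a m, a < m → IsLC (ε m) (v m) (A m) (C m) (G a m) (G' a m)
  hsel : ∀ (K P : ℕ) (φ : ℕ → ℕ), StrictMono φ → ∀ (f : ∀ m, Fin K → Fin (r (φ m)))
    (g : ∀ m, Fin P → Fin (p (φ m))),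
    ∃ h : ℕ → ℕ, StrictMono h ∧ (∀ a b, a ≤ b → ε (φ (h a)) ≤ ε (φ (h b))) ∧
      ∀ a, ∀ δ : ℝ, 0 < δ → ∀ᶠ b in atTop,
        (∀ i, B (φ (h a)) (f (h a) i) ≤ G (φ (h a)) (φ (h b)) (f (h b) i) + δ) ∧
        ∀ i, B' (φ (h a)) (g (h a) i) ≤ G' (φ (h a)) (φ (h b)) (g (h b) i) + δ

end Pool.Agent.Helper98.Germ
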