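import Pool.Agent.Helper98.Germ.Types
import Pool.Agent.Helper98.Germ.Basic

/-!
# There is no counterexample family

`case1`: some size of a reduced violation occurs infinitely often, then `core`. `case2`: `F.hsel 0 1`.
-/

open Finset Filter Topology

namespace Pool.Agent.Helper98.Germ

open Pool.Agent.Helper31.Toric (intVec coefGroup exists_limit)

theorem Fam.case1 {d e : ℕ} (F : Fam d e) (φ : ℕ → ℕ) (hφ : StrictMono φ)
    (h : ∀ m, Viol (F.ε (φ m)) (F.v (φ m)) (F.A (φ m)) (F.C (φ m)) (F.B (φ m)) (F.B' (φ m))) :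
    False := by
  classical
  obtain ⟨N₀, hN⟩ := F.exists_redAt
  have hfreq : ∃ K P : ℕ, ∃ᶠ m in atTop, RedAt F (φ m) K P := by
    by_contra hcon
    have h1 : ∀ K P : ℕ, ∀ᶠ m in atTop, ¬ RedAt F (φ m) K P := by
      intro K P
      by_contra h2
      exact hcon ⟨K, P, h2⟩
    have h3 : ∀ᶠ m in atTop, ∀ x ∈ Finset.range (N₀ + 1) ×ˢ Finset.range (N₀ + 1),
        ¬ RedAt F (φ m) x.1 x.2 := by
      rw [Filter.eventually_all_finset]
      intro x _
      exact h1 x.1 x.2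
    obtain ⟨m, hm, hm'⟩ := (h3.and (eventually_gt_atTop 0)).exists
    obtain ⟨K, P, hK, hP, hR⟩ := hN (φ m) (lt_of_lt_of_le hm' (hφ.id_le m)) (h m)
    refine hm (K, P) ?_ hR
    rw [Finset.mem_product, Finset.mem_range, Finset.mem_range]
    exact ⟨Nat.lt_succ_of_le hK, Nat.lt_succ_of_le hP⟩
  obtain ⟨K, P, hfr⟩ := hfreq
  obtain ⟨ψ, hψ, hR⟩ := Filter.extraction_of_frequently_atTop hfr
  obtain ⟨θ, hθd⟩ : ∃ θ : ℕ → ℕ, θ = φ ∘ ψ := ⟨_, rfl⟩
  have hθ : StrictMono θ := by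
    rw [hθd]
    exact hφ.comp hψ
  have hR' : ∀ n, RedAt F (θ n) K P := by
    rw [hθd]
    exact hR
  choose f g l hl hmem htot hge using hR'
  refine core (k := K) (P := P + 1) (fun n => F.ε (θ n)) (fun n i => F.B (θ n) (f n i))
    (fun a n i => F.G (θ a) (θ n) (f n i)) (fun n => Fin.cons 1 (fun t => F.B' (θ n) (g n t)))
    (fun a n => Fin.cons 1 (fun t => F.G' (θ a) (θ n) (g n t)))
    (fun n => Fin.cons (eqE (fun i => F.v (θ n) (f n i)) (F.A (θ n)))
      (fun t => expo (fun i => F.v (θ n) (f n i)) (F.C (θ n) (g n t))))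
    (fun n => coefGroup (fun i => F.v (θ n) (f n i))) ?_ (fun n => F.hε (θ n))
    (fun a n i => F.hG0 (θ a) (θ n) (f n i)) ?_ ?_ ?_ l hl hmem htot ?_ ?_
  · intro n t
    refine Fin.cases ?_ (fun t => ?_) t
    · show (eqE (fun i => F.v (θ n) (f n i)) (F.A (θ n))).Nonempty
      unfold eqE
      by_cases he : 0 < e
      · rw [dif_pos he]
        exact (F.data (θ n)).2.2.2.1 ⟨0, he⟩ |>.image _
      · rw [dif_neg he]
        exact Finset.singleton_nonempty _
    · show (expo (fun i => F.v (θ n) (f n i)) (F.C (θ n) (g n t))).Nonempty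
      exact (F.data (θ n)).2.2.2.2.1 (g n t) |>.image _
  · intro n t
    refine Fin.cases ?_ (fun t => ?_) t
    · exact zero_le_one
    · exact F.hB0' (θ n) (g n t)
  · intro a n t
    refine Fin.cases ?_ (fun t => ?_) t
    · exact zero_le_one
    · exact F.hG0' (θ a) (θ n) (g n t)
  · intro n z
    refine ⟨fun j => ∑ i, z i * F.v (θ n) (f n i) j, fun j => ?_⟩
    push_cast
    rfl
  · intro a j haj μ hμ hpos
    exact hge j (θ a) (hθ haj) μ hμ hpos
  · intro φ' hφ'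
    obtain ⟨s, hs, hmono, hev⟩ := F.hsel K P (fun m => θ (φ' m)) (hθ.comp hφ') (fun m => f (φ' m))
      (fun m => g (φ' m))
    refine ⟨s, hs, hmono, fun a δ hδ => ?_⟩
    filter_upwards [hev a δ hδ] with b hb
    refine ⟨hb.1, fun t => ?_⟩
    refine Fin.cases ?_ (fun t => ?_) t
    · show (1 : ℝ) ≤ 1 + δ
      linarith
    · exact hb.2 t

theorem Fam.case2 {d e : ℕ} (F : Fam d e) (φ : ℕ → ℕ) (hφ : StrictMono φ)
    (h : ∀ m, ∃ j, 1 - F.ε (φ m) < F.B' (φ m) j) : False := by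
  choose j hj using h
  obtain ⟨s, hs, hmono, hev⟩ := F.hsel 0 1 φ hφ (fun _ i => i.elim0) (fun m _ => j m)
  have hδ : 0 < (F.B' (φ (s 0)) (j (s 0)) - (1 - F.ε (φ (s 0)))) / 2 := by
    have := hj (s 0)
    linarith
  obtain ⟨b, hb, hb0⟩ := ((hev 0 _ hδ).and (eventually_gt_atTop 0)).exists
  have h1 := hb.2 0
  have h2 := (F.hyes (φ (s 0)) (φ (s b)) (hφ (hs hb0))).1 (j (s b))
  have h3 := hmono 0 b (Nat.zero_le b)
  linarith

theorem Fam.false {d e : ℕ} (F : Fam d e) : False := by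
  have hv := fun m => exists_violation (F.data m) (F.hnot m)
  have key : ∀ P : ℕ → Prop, (∀ φ : ℕ → ℕ, StrictMono φ → (∀ m, P (φ m)) → False) →
      ∀ᶠ m in atTop, ¬ P m := by
    intro P hP
    by_contra hcon
    rw [not_eventually] at hcon
    simp only [not_not] at hcon
    obtain ⟨φ, hφ, hφP⟩ := Filter.extraction_of_frequently_atTop hcon
    exact hP φ hφ hφP
  have h1 := key (fun m => Viol (F.ε m) (F.v m) (F.A m) (F.C m) (F.B m) (F.B' m)) F.case1
  have h2 := key (fun m => ∃ j, 1 - F.ε m < F.B' m j) F.case2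
  obtain ⟨m, ha, hb⟩ := (h1.and h2).exists
  rcases hv m with h | h
  · exact ha h
  · exact hb h

end Pool.Agent.Helper98.Germ
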