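import Pool.Agent.Helper98.Germ.Val

/-!
# Inversion of adjunction, the case `ε > 0` (infinite process, pigeonhole, Dickson's lemma)
-/

open Finset Filter Topology

namespace Pool.Agent.Helper98.Germ

open Pool.Agent.Helper31.Toric (intVec coefGroup)

private theorem pa_dot_add {k : ℕ} (γ : Fin k → ℕ) (ν : EuclideanSpace ℝ (Fin k)) (i : Fin k) :
    dot γ (fun j => (ν + intVec (Pi.single i 1)) j) = dot γ (fun j => ν j) + γ i := by
  unfold dot
  have h1 : ∀ j, (γ j : ℝ) * (ν + intVec (Pi.single i 1)) j =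
      (γ j : ℝ) * ν j + (if j = i then (γ j : ℝ) else 0) := by
    intro j
    rw [PiLp.add_apply, Pool.Agent.Helper31.Toric.intVec_apply, mul_add]
    congr 1
    by_cases h : j = i
    · subst h
      rw [Pi.single_eq_same, if_pos rfl, Int.cast_one, mul_one]
    · rw [Pi.single_eq_of_ne h, if_neg h, Int.cast_zero, mul_zero]
  rw [Finset.sum_congr rfl fun j _ => h1 j, Finset.sum_add_distrib, Finset.sum_ite_eq' univ i,
    if_pos (mem_univ i)]

private theorem pa_dot_sub {k : ℕ} (γ : Fin k → ℕ) (ν ν' : EuclideanSpace ℝ (Fin k)) :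
    dot γ (fun j => (ν - ν') j) = dot γ (fun j => ν j) - dot γ (fun j => ν' j) := by
  unfold dot
  rw [← Finset.sum_sub_distrib]
  refine Finset.sum_congr rfl fun j _ => ?_
  show (γ j : ℝ) * (ν - ν') j = (γ j : ℝ) * ν j - (γ j : ℝ) * ν' j
  rw [PiLp.sub_apply, mul_sub]

private theorem pb_le_val {k : ℕ} {E : Finset (Fin k → ℕ)} (hE : E.Nonempty) (μ : Fin k → ℝ) {c : ℝ}
    (h : ∀ γ ∈ E, c ≤ dot γ μ) : c ≤ val E μ := by
  obtain ⟨α, hα, h1⟩ := exists_val_eq hE μ
  rw [← h1]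
  exact h α hα

private theorem pc_nat {k : ℕ} {E : Finset (Fin k → ℕ)} (hE : E.Nonempty) (μ : Fin k → ℝ)
    (hint : ∀ α ∈ E, ∀ α' ∈ E, ∃ z : ℤ, dot α μ - dot α' μ = z) (γ : Fin k → ℕ) (hγ : γ ∈ E) :
    ∃ N : ℕ, dot γ μ = val E μ + N := by
  obtain ⟨α, hα, h1⟩ := exists_val_eq hE μ
  obtain ⟨z, hz⟩ := hint γ hγ α hα
  have h2 := val_le hγ μ
  have hz0 : 0 ≤ z := by
    have h3 : (0 : ℝ) ≤ (z : ℝ) := by
      rw [← hz, h1]
      linarith
    exact_mod_cast h3
  refine ⟨z.toNat, ?_⟩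
  have h3 : ((z.toNat : ℕ) : ℝ) = (z : ℝ) := by
    have h4 : ((z.toNat : ℕ) : ℤ) = z := Int.toNat_of_nonneg hz0
    exact_mod_cast congrArg (fun x : ℤ => (x : ℝ)) h4
  rw [h3]
  linarith

private theorem pd_step {k P : ℕ} {E₀ : Finset (Fin k → ℕ)} {E : Fin P → Finset (Fin k → ℕ)}
    (hE₀ : E₀.Nonempty) (hE : ∀ t, (E t).Nonempty) (b : Fin k → ℝ) (c : Fin P → ℝ)
    (hb : ∀ i, 0 ≤ b i) (hc : ∀ t, 0 ≤ c t) (ν : EuclideanSpace ℝ (Fin k)) {a : Fin k → ℕ}
    (hval : dot a (fun j => ν j) = val E₀ (fun j => ν j))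
    (hoth : ∀ a' ∈ E₀, a' ≠ a → val E₀ (fun j => ν j) + 1 ≤ dot a' (fun j => ν j)) (i : Fin k)
    (hi : a i ≠ 0) :
    val E₀ (fun j => ν j) + 1 ≤ val E₀ (fun j => (ν + intVec (Pi.single i 1)) j) ∧
      cost b c E₀ E (fun j => (ν + intVec (Pi.single i 1)) j) ≤ cost b c E₀ E (fun j => ν j) := by
  have h1 : val E₀ (fun j => ν j) + 1 ≤ val E₀ (fun j => (ν + intVec (Pi.single i 1)) j) := by
    refine pb_le_val hE₀ _ fun γ hγ => ?_
    rw [pa_dot_add]
    by_cases h : γ = a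
    · rw [h, hval]
      have h2 : (1 : ℝ) ≤ a i := by
        exact_mod_cast Nat.one_le_iff_ne_zero.2 hi
      linarith
    · have h2 := hoth γ hγ h
      have h3 : (0 : ℝ) ≤ γ i := Nat.cast_nonneg _
      linarith
  refine ⟨h1, ?_⟩
  have h2 : ∀ t, val (E t) (fun j => ν j) ≤ val (E t) (fun j => (ν + intVec (Pi.single i 1)) j) := by
    intro t
    refine pb_le_val (hE t) _ fun γ hγ => ?_
    rw [pa_dot_add]
    have h3 : (0 : ℝ) ≤ γ i := Nat.cast_nonneg _
    have h4 := val_le hγ (fun j => ν j)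
    linarith
  have h3 : ∑ t, c t * val (E t) (fun j => ν j) ≤
      ∑ t, c t * val (E t) (fun j => (ν + intVec (Pi.single i 1)) j) :=
    Finset.sum_le_sum fun t _ => mul_le_mul_of_nonneg_left (h2 t) (hc t)
  have h4 : ∑ j, (ν + intVec (Pi.single i 1)) j * (1 - b j) = ∑ j, ν j * (1 - b j) + (1 - b i) := by
    have h5 : ∀ j, (ν + intVec (Pi.single i 1)) j * (1 - b j) =
        ν j * (1 - b j) + (if j = i then (1 - b j) else 0) := by
      intro j
      rw [PiLp.add_apply, Pool.Agent.Helper31.Toric.intVec_apply, add_mul]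
      congr 1
      by_cases h : j = i
      · subst h
        rw [Pi.single_eq_same, if_pos rfl, Int.cast_one, one_mul]
      · rw [Pi.single_eq_of_ne h, if_neg h, Int.cast_zero, zero_mul]
    rw [Finset.sum_congr rfl fun j _ => h5 j, Finset.sum_add_distrib, Finset.sum_ite_eq' univ i,
      if_pos (mem_univ i)]
  unfold cost
  rw [h4]
  have h5 := hb i
  linarith

theorem PAx.pia_pos {k P : ℕ} (hk : 0 < k) {H : AddSubgroup (EuclideanSpace ℝ (Fin k))}
    {E₀ : Finset (Fin k → ℕ)} {E : Fin P → Finset (Fin k → ℕ)} {T : (Fin k → ℝ) → Prop}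
    (hP : PAx H E₀ E T) (ε : ℝ) (hε : 0 < ε) (b : Fin k → ℝ) (c : Fin P → ℝ)
    (hb : ∀ i, 0 ≤ b i) (hc : ∀ t, 0 ≤ c t)
    (hG : ∀ τ ∈ H, (∀ i, 0 ≤ τ i) → (∃ i, 0 < τ i) → T (fun i => τ i) →
      ε ≤ cost b c E₀ E (fun i => τ i))
    (μ : EuclideanSpace ℝ (Fin k)) (hμ : μ ∈ H) (hpos : ∀ i, 0 < μ i) :
    ε ≤ cost b c E₀ E (fun i => μ i) := by
  classical
  by_contra hcon
  rw [not_le] at hcon
  -- the unique minimal exponent
  have hα : ∀ ν : EuclideanSpace ℝ (Fin k), ∃ a : Fin k → ℕ, ν ∈ H → (∀ i, 0 < ν i) →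
      cost b c E₀ E (fun i => ν i) < ε → (a ∈ E₀ ∧ a ≠ 0 ∧
        dot a (fun j => ν j) = val E₀ (fun j => ν j) ∧
        ∀ a' ∈ E₀, a' ≠ a → val E₀ (fun j => ν j) + 1 ≤ dot a' (fun j => ν j)) := by
    intro ν
    by_cases h : ν ∈ H ∧ (∀ i, 0 < ν i) ∧ cost b c E₀ E (fun i => ν i) < ε
    · obtain ⟨h1, h2, h3⟩ := h
      have hT : ¬ T (fun i => ν i) := by
        intro hT
        have h4 := hG ν h1 (fun i => (h2 i).le) ⟨⟨0, hk⟩, h2 _⟩ hT
        linarith
      obtain ⟨a, ha, ha0, huniq⟩ := hP.notTrop ν h1 h2 hT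
      obtain ⟨a1, ha1, ha1'⟩ := exists_val_eq hP.ne₀ (fun i => ν i)
      have h5 : a1 = a := huniq a1 ha1 ha1'
      subst h5
      refine ⟨a1, fun _ _ _ => ⟨ha, ha0, ha1', ?_⟩⟩
      intro a' ha' hne
      obtain ⟨N, hN⟩ := pc_nat hP.ne₀ (fun j => ν j) (hP.int₀ ν h1) a' ha'
      have h6 : N ≠ 0 := by
        intro h7
        rw [h7, Nat.cast_zero, add_zero] at hN
        exact hne (huniq a' ha' hN)
      have h7 : (1 : ℝ) ≤ N := by exact_mod_cast Nat.one_le_iff_ne_zero.2 h6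
      linarith
    · exact ⟨0, fun h1 h2 h3 => absurd ⟨h1, h2, h3⟩ h⟩
  choose α hα using hα
  have hι : ∀ a : Fin k → ℕ, ∃ i : Fin k, a ≠ 0 → a i ≠ 0 := by
    intro a
    by_cases h : a = 0
    · exact ⟨⟨0, hk⟩, fun h' => absurd h h'⟩
    · obtain ⟨i, hi⟩ := Function.ne_iff.1 h
      exact ⟨i, fun _ => hi⟩
  choose ι hι using hι
  obtain ⟨M, hM0, hMs⟩ : ∃ M : ℕ → EuclideanSpace ℝ (Fin k), M 0 = μ ∧
      ∀ n, M (n + 1) = M n + intVec (Pi.single (ι (α (M n))) 1) :=
    ⟨fun n => Nat.rec μ (fun _ ν => ν + intVec (Pi.single (ι (α ν)) 1)) n, rfl, fun _ => rfl⟩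
  have hcoord : ∀ n j, M (n + 1) j = M n j + (if j = ι (α (M n)) then 1 else 0) := by
    intro n j
    rw [hMs, PiLp.add_apply, Pool.Agent.Helper31.Toric.intVec_apply]
    congr 1
    by_cases h : j = ι (α (M n))
    · rw [if_pos h, h, Pi.single_eq_same, Int.cast_one]
    · rw [if_neg h, Pi.single_eq_of_ne h, Int.cast_zero]
  have hmono1 : ∀ j, Monotone (fun n => M n j) := by
    intro j
    refine monotone_nat_of_le_succ fun n => ?_
    rw [hcoord]
    by_cases h : j = ι (α (M n))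
    · rw [if_pos h]
      linarith
    · rw [if_neg h]
      linarith
  -- invariants
  have hinv : ∀ n, M n ∈ H ∧ (∀ i, 0 < M n i) ∧ cost b c E₀ E (fun i => M n i) < ε := by
    intro n
    induction n with
    | zero =>
      rw [hM0]
      exact ⟨hμ, hpos, hcon⟩
    | succ n ih =>
      obtain ⟨h1, h2, h3⟩ := ih
      obtain ⟨a1, a2, a3, a4⟩ := hα (M n) h1 h2 h3
      have hst := pd_step hP.ne₀ hP.ne b c hb hc (M n) a3 a4 (ι (α (M n))) (hι _ a2)
      refine ⟨?_, ?_, ?_⟩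
      · rw [hMs]
        exact H.add_mem h1 (hP.hH _)
      · intro i
        exact lt_of_lt_of_le (h2 i) (hmono1 i (Nat.le_succ n))
      · rw [hMs]
        exact lt_of_le_of_lt hst.2 h3
  have hA : ∀ n, α (M n) ∈ E₀ ∧ α (M n) ≠ 0 ∧
      dot (α (M n)) (fun j => M n j) = val E₀ (fun j => M n j) ∧
      ∀ a' ∈ E₀, a' ≠ α (M n) → val E₀ (fun j => M n j) + 1 ≤ dot a' (fun j => M n j) :=
    fun n => hα (M n) (hinv n).1 (hinv n).2.1 (hinv n).2.2
  have hstep : ∀ n, val E₀ (fun j => M n j) + 1 ≤ val E₀ (fun j => M (n + 1) j) ∧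
      cost b c E₀ E (fun j => M (n + 1) j) ≤ cost b c E₀ E (fun j => M n j) := by
    intro n
    have hst := pd_step hP.ne₀ hP.ne b c hb hc (M n) (hA n).2.2.1 (hA n).2.2.2 (ι (α (M n)))
      (hι _ (hA n).2.1)
    rw [hMs]
    exact hst
  have hanti : Antitone (fun n => cost b c E₀ E (fun j => M n j)) :=
    antitone_nat_of_succ_le fun n => (hstep n).2
  have hgrow : ∀ n : ℕ, val E₀ (fun j => M 0 j) + n ≤ val E₀ (fun j => M n j) := by
    intro n
    induction n with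
    | zero => simp
    | succ n ih =>
      have h1 := (hstep n).1
      push_cast
      linarith
  have hdot : ∀ n (γ : Fin k → ℕ), dot γ (fun j => M (n + 1) j) =
      dot γ (fun j => M n j) + γ (ι (α (M n))) := by
    intro n γ
    rw [hMs]
    exact pa_dot_add γ (M n) _
  -- the minimal exponent is not eventually constant
  have hbad : ∀ N, ∃ n > N, α (M (n + 1)) ≠ α (M n) := by
    by_contra hno
    obtain ⟨N, hN⟩ := not_forall.1 hno
    have hN' : ∀ n, N < n → α (M (n + 1)) = α (M n) := by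
      intro n hn
      by_contra h
      exact hN ⟨n, hn, h⟩
    have hconst : ∀ n, N + 1 ≤ n → α (M n) = α (M (N + 1)) := by
      intro n hn
      induction n, hn using Nat.le_induction with
      | base => rfl
      | succ n hn ih => rw [hN' n hn, ih]
    obtain ⟨β, hβ, hβ0⟩ := hP.zero (ι (α (M (N + 1))))
    have hd : ∀ n, N + 1 ≤ n → dot β (fun j => M n j) = dot β (fun j => M (N + 1) j) := by
      intro n hn
      induction n, hn using Nat.le_induction with
      | base => rfl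
      | succ n hn ih => rw [hdot, hconst n hn, hβ0, Nat.cast_zero, add_zero, ih]
    obtain ⟨n, hn⟩ := exists_nat_gt (dot β (fun j => M (N + 1) j) - val E₀ (fun j => M 0 j))
    have h1 := hgrow (max n (N + 1))
    have h2 := val_le hβ (fun j => M (max n (N + 1)) j)
    rw [hd _ (le_max_right _ _)] at h2
    have h3 : (n : ℝ) ≤ ((max n (N + 1) : ℕ) : ℝ) := by exact_mod_cast le_max_left n (N + 1)
    linarith
  obtain ⟨φ, hφ, hφbad⟩ := Filter.extraction_of_frequently_atTop (Filter.frequently_atTop'.2 hbad)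
  -- all families of exponents together
  obtain ⟨E', hE'⟩ : ∃ E' : Option (Fin P) → Finset (Fin k → ℕ), E' = fun o => o.elim E₀ E := ⟨_, rfl⟩
  have hE'0 : E' none = E₀ := by rw [hE']; rfl
  have hE's : ∀ t, E' (some t) = E t := fun t => by rw [hE']; rfl
  have hne' : ∀ o, (E' o).Nonempty := by
    intro o
    cases o with
    | none => rw [hE'0]; exact hP.ne₀
    | some t => rw [hE's]; exact hP.ne t
  have hint' : ∀ o, ∀ ν ∈ H, ∀ a ∈ E' o, ∀ a' ∈ E' o,
      ∃ z : ℤ, dot a (fun i => ν i) - dot a' (fun i => ν i) = z := by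
    intro o
    cases o with
    | none => rw [hE'0]; exact hP.int₀
    | some t => rw [hE's]; exact hP.int t
  have hNN : ∀ (n : ℕ) (o : Option (Fin P)) (γ : Fin k → ℕ), ∃ N : ℕ, γ ∈ E' o →
      dot γ (fun j => M n j) = val (E' o) (fun j => M n j) + N := by
    intro n o γ
    by_cases h : γ ∈ E' o
    · obtain ⟨N, hN⟩ := pc_nat (hne' o) (fun j => M n j) (hint' o (M n) (hinv n).1) γ h
      exact ⟨N, fun _ => hN⟩
    · exact ⟨0, fun h' => absurd h' h⟩
  choose NN hNN using hNN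
  have hN0 : ∀ n γ, γ ∈ E₀ → dot γ (fun j => M n j) = val E₀ (fun j => M n j) + NN n none γ := by
    intro n γ hγ
    have h := hNN n none γ (by rw [hE'0]; exact hγ)
    rw [hE'0] at h
    exact h
  -- the changes
  have hdel : ∀ n, α (M (n + 1)) ≠ α (M n) → 1 ≤ NN n none (α (M (n + 1))) ∧
      NN n none (α (M (n + 1))) + α (M (n + 1)) (ι (α (M n))) ≤ α (M n) (ι (α (M n))) := by
    intro n hn
    have h1 := hN0 n _ (hA (n + 1)).1
    constructor
    · have h2 := (hA n).2.2.2 _ (hA (n + 1)).1 hn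
      rw [h1] at h2
      have h3 : (1 : ℝ) ≤ NN n none (α (M (n + 1))) := by linarith
      exact_mod_cast h3
    · have h2 := (hA (n + 1)).2.2.1
      have h3 := val_le (hA n).1 (fun j => M (n + 1) j)
      rw [← h2, hdot, hdot, h1, (hA n).2.2.1] at h3
      have h4 : (NN n none (α (M (n + 1))) : ℝ) + (α (M (n + 1)) (ι (α (M n))) : ℝ) ≤
          (α (M n) (ι (α (M n))) : ℝ) := by linarith
      exact_mod_cast h4
  obtain ⟨U, hU⟩ : ∃ U : Finset (Fin k → ℕ), ∀ o, ∀ γ ∈ E' o, γ ∈ U :=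
    ⟨univ.biUnion E', fun o γ hγ => mem_biUnion.2 ⟨o, mem_univ o, hγ⟩⟩
  obtain ⟨D, hD⟩ : ∃ D : ℕ → ℕ × (Option (Fin P) × U → ℕ), D = fun n =>
    (α (M n) (ι (α (M n))) - NN n none (α (M (n + 1))), fun x => NN n x.1 x.2) := ⟨_, rfl⟩
  obtain ⟨g, hg⟩ := (wellQuasiOrdered_le (α := ℕ × (Option (Fin P) × U → ℕ))).exists_monotone_subseq
    (fun n => D (φ n))
  obtain ⟨m, n, hmn, hfeq⟩ := (Finset.finite_toSet E₀).exists_lt_map_eq_of_forall_mem
    (f := fun n => α (M (φ (g n) + 1))) fun n => (hA _).1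
  have hle := hg m n hmn.le
  obtain ⟨p, hp⟩ : ∃ p, p = φ (g m) := ⟨_, rfl⟩
  obtain ⟨q, hq⟩ : ∃ q, q = φ (g n) := ⟨_, rfl⟩
  have hpq : p < q := by
    rw [hp, hq]
    exact hφ (g.strictMono hmn)
  have hle' : D p ≤ D q := by
    rw [hp, hq]
    exact hle
  have hβeq : α (M (p + 1)) = α (M (q + 1)) := by
    rw [hp, hq]
    exact hfeq
  have hbp : α (M (p + 1)) ≠ α (M p) := by
    rw [hp]
    exact hφbad (g m)
  have hbq : α (M (q + 1)) ≠ α (M q) := by
    rw [hq]
    exact hφbad (g n)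
  rw [hD] at hle'
  have hF : ∀ o, ∀ γ ∈ E' o, NN p o γ ≤ NN q o γ := fun o γ hγ => hle'.2 (o, ⟨γ, hU o γ hγ⟩)
  have hψ : α (M p) (ι (α (M p))) - NN p none (α (M (p + 1))) ≤
      α (M q) (ι (α (M q))) - NN q none (α (M (q + 1))) := hle'.1
  -- minimal at `q` implies minimal at `p`
  have hzero : ∀ o, ∀ γ ∈ E' o, dot γ (fun j => M q j) = val (E' o) (fun j => M q j) →
      dot γ (fun j => M p j) = val (E' o) (fun j => M p j) := by
    intro o γ hγ h
    have h1 := hNN q o γ hγ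
    rw [h] at h1
    have h2 : (NN q o γ : ℝ) = 0 := by linarith
    have h3 : NN q o γ = 0 := by exact_mod_cast h2
    have h4 : NN p o γ = 0 := Nat.le_zero.1 (h3 ▸ hF o γ hγ)
    have h5 := hNN p o γ hγ
    rw [h4, Nat.cast_zero, add_zero] at h5
    exact h5
  have hαeq : α (M q) = α (M p) := by
    by_contra hne
    have h1 := hzero none (α (M q)) (by rw [hE'0]; exact (hA q).1) (by rw [hE'0]; exact (hA q).2.2.1)
    rw [hE'0] at h1
    have h2 := (hA p).2.2.2 _ (hA q).1 hne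
    linarith
  have hdp := hdel p hbp
  have hdq := hdel q hbq
  have hδ1 : NN p none (α (M (p + 1))) ≤ NN q none (α (M (p + 1))) :=
    hF none _ (by rw [hE'0]; exact (hA (p + 1)).1)
  have hδ : NN p none (α (M (p + 1))) = NN q none (α (M (p + 1))) := by
    rw [← hβeq] at hψ hdq
    rw [hαeq] at hψ hdq
    omega
  -- the difference
  have hvalτ : ∀ o, val (E' o) (fun j => (M q - M p) j) =
      val (E' o) (fun j => M q j) - val (E' o) (fun j => M p j) := by
    intro o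
    refine le_antisymm ?_ ?_
    · obtain ⟨γ, hγ, h1⟩ := exists_val_eq (hne' o) (fun j => M q j)
      have h2 := val_le hγ (fun j => (M q - M p) j)
      rw [pa_dot_sub, h1, hzero o γ hγ h1] at h2
      exact h2
    · refine pb_le_val (hne' o) _ fun γ hγ => ?_
      rw [pa_dot_sub, hNN q o γ hγ, hNN p o γ hγ]
      have h3 : (NN p o γ : ℝ) ≤ NN q o γ := by exact_mod_cast hF o γ hγ
      linarith
  have hval0 := hvalτ none
  rw [hE'0] at hval0
  have hτH : M q - M p ∈ H := H.sub_mem (hinv q).1 (hinv p).1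
  have hτ0 : ∀ i, 0 ≤ (M q - M p) i := by
    intro i
    rw [PiLp.sub_apply]
    have := hmono1 i hpq.le
    exact sub_nonneg.2 this
  have hτi : 0 < (M q - M p) (ι (α (M p))) := by
    rw [PiLp.sub_apply]
    have h1 : M (p + 1) (ι (α (M p))) ≤ M q (ι (α (M p))) := hmono1 _ (Nat.succ_le_of_lt hpq)
    rw [hcoord, if_pos rfl] at h1
    linarith
  have hT : T (fun i => (M q - M p) i) := by
    refine hP.trop (M q - M p) hτH hτ0 (α (M p)) (hA p).1 (α (M (p + 1))) (hA (p + 1)).1 ?_ ?_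
      ⟨ι (α (M p)), hτi, ?_⟩
    · rw [pa_dot_sub, hval0, (hA p).2.2.1]
      have h1 := (hA q).2.2.1
      rw [hαeq] at h1
      rw [h1]
    · rw [pa_dot_sub, hval0, hN0 q _ (hA (p + 1)).1, hN0 p _ (hA (p + 1)).1, hδ]
      ring
    · intro h
      have h1 := hdp.1
      have h2 := hdp.2
      omega
  have hfin := hG (M q - M p) hτH hτ0 ⟨_, hτi⟩ hT
  have hcost : cost b c E₀ E (fun i => (M q - M p) i) =
      cost b c E₀ E (fun i => M q i) - cost b c E₀ E (fun i => M p i) := by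
    unfold cost
    have h1 : ∑ i, (M q - M p) i * (1 - b i) = ∑ i, M q i * (1 - b i) - ∑ i, M p i * (1 - b i) := by
      rw [← Finset.sum_sub_distrib]
      refine Finset.sum_congr rfl fun i _ => ?_
      rw [PiLp.sub_apply, sub_mul]
    have h2 : ∑ t, c t * val (E t) (fun i => (M q - M p) i) =
        ∑ t, c t * val (E t) (fun i => M q i) - ∑ t, c t * val (E t) (fun i => M p i) := by
      rw [← Finset.sum_sub_distrib]
      refine Finset.sum_congr rfl fun t _ => ?_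
      have h3 := hvalτ (some t)
      rw [hE's] at h3
      rw [h3, mul_sub]
    rw [h1, h2, hval0]
    ring
  have hle2 : cost b c E₀ E (fun i => M q i) ≤ cost b c E₀ E (fun i => M p i) := hanti hpq.le
  rw [hcost] at hfin
  linarith

end Pool.Agent.Helper98.Germ
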