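import Pool.Agent.Helper98.Germ.Val

/-!
# Inversion of adjunction, the case `ε = 0`

Plan. Suppose `cost μ < 0`. If `T μ`, contradiction with `hG` (`k > 0` since... if `k = 0` then
`cost μ = 0`). Otherwise let `α` be the unique minimal element of `E₀` at `μ` (`notTrop`; it is
minimal because some element is, `exists_val_eq`), `α ≠ 0`, say `α i ≥ 1`. For the elements `β`
of `E₀` with `β i < α i` (there are some: `zero i`) let `t β = (dot β μ - dot α μ) / (α i - β i)`,
which is positive (`β ≠ α`, so `β` is not minimal) and rational (`int₀`). Let `t` be the smallest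
of them, attained at `β`. Put `ν = μ + t e_i`. Then `α` and `β` are minimal at `ν`:
`dot α ν = dot β ν ≤ dot γ ν` for all `γ ∈ E₀`, and `val E₀ ν = val E₀ μ + t * α i`. As
`val (E s) ν ≥ val (E s) μ`, `b i ≥ 0`, `c ≥ 0`: `cost ν ≤ cost μ + t (1 - b i) - t α i ≤ cost μ < 0`.
Let `N > 0` be a natural number with `N t` a natural number; `N μ + (N t) e_i` is in `H`, is
positive, `T` holds for it by `trop` (`α i ≠ β i`), and its cost is `N * cost ν < 0`
(homogeneity of `val`, `cost`), a contradiction with `hG`.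
-/

open Finset Filter Topology

namespace Pool.Agent.Helper98.Germ

open Pool.Agent.Helper31.Toric (intVec coefGroup)

private theorem dot_smul' {k : ℕ} (α : Fin k → ℕ) (μ : Fin k → ℝ) (a : ℝ) :
    dot α (fun i => a * μ i) = a * dot α μ := by
  unfold dot
  rw [Finset.mul_sum]
  exact Finset.sum_congr rfl fun i _ => by ring

private theorem dot_add' {k : ℕ} (α : Fin k → ℕ) (μ : Fin k → ℝ) (i : Fin k) (t : ℝ) :
    dot α (fun j => μ j + if j = i then t else 0) = dot α μ + t * α i := by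
  unfold dot
  simp only [mul_add, Finset.sum_add_distrib, mul_ite, mul_zero, Finset.sum_ite_eq',
    Finset.mem_univ, if_true]
  ring

theorem val_smul {k : ℕ} (E : Finset (Fin k → ℕ)) (μ : Fin k → ℝ) (a : ℝ) (ha : 0 ≤ a) :
    val E (fun i => a * μ i) = a * val E μ := by
  by_cases hE : E.Nonempty
  · apply le_antisymm
    · obtain ⟨α, hα, h1⟩ := exists_val_eq hE μ
      rw [← h1, ← dot_smul']
      exact val_le hα _
    · obtain ⟨α, hα, h1⟩ := exists_val_eq hE (fun i => a * μ i)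
      rw [← h1, dot_smul']
      exact mul_le_mul_of_nonneg_left (val_le hα _) ha
  · unfold val
    rw [dif_neg hE, dif_neg hE, mul_zero]

private theorem cost_smul' {k P : ℕ} (b : Fin k → ℝ) (c : Fin P → ℝ) (E₀ : Finset (Fin k → ℕ))
    (E : Fin P → Finset (Fin k → ℕ)) (μ : Fin k → ℝ) (a : ℝ) (ha : 0 ≤ a) :
    cost b c E₀ E (fun i => a * μ i) = a * cost b c E₀ E μ := by
  unfold cost
  have h1 : ∑ i, a * μ i * (1 - b i) = a * ∑ i, μ i * (1 - b i) := by
    rw [Finset.mul_sum]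
    exact Finset.sum_congr rfl fun i _ => by ring
  have h2 : ∑ t, c t * val (E t) (fun i => a * μ i) = a * ∑ t, c t * val (E t) μ := by
    rw [Finset.mul_sum]
    refine Finset.sum_congr rfl fun t _ => ?_
    rw [val_smul _ _ _ ha]
    ring
  rw [h1, h2, val_smul _ _ _ ha]
  ring

theorem PAx.pia_zero {k P : ℕ} {H : AddSubgroup (EuclideanSpace ℝ (Fin k))}
    {E₀ : Finset (Fin k → ℕ)} {E : Fin P → Finset (Fin k → ℕ)} {T : (Fin k → ℝ) → Prop}
    (hP : PAx H E₀ E T) (b : Fin k → ℝ) (c : Fin P → ℝ) (hb : ∀ i, 0 ≤ b i)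
    (hc : ∀ t, 0 ≤ c t)
    (hG : ∀ τ ∈ H, (∀ i, 0 ≤ τ i) → (∃ i, 0 < τ i) → T (fun i => τ i) →
      0 ≤ cost b c E₀ E (fun i => τ i))
    (μ : EuclideanSpace ℝ (Fin k)) (hμ : μ ∈ H) (hpos : ∀ i, 0 < μ i) :
    0 ≤ cost b c E₀ E (fun i => μ i) := by
  classical
  by_contra hneg
  push Not at hneg
  rcases Nat.eq_zero_or_pos k with hk | hk
  · subst hk
    have hv : ∀ F : Finset (Fin 0 → ℕ), F.Nonempty → val F (fun i => μ i) = 0 := by
      intro F hF
      obtain ⟨α, _, h1⟩ := exists_val_eq hF (fun i => μ i)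
      rw [← h1]
      simp [dot]
    have h2 : cost b c E₀ E (fun i => μ i) = 0 := by
      have h3 : ∑ t, c t * val (E t) (fun i => μ i) = 0 :=
        Finset.sum_eq_zero fun t _ => by rw [hv (E t) (hP.ne t), mul_zero]
      unfold cost
      rw [hv E₀ hP.ne₀, h3]
      simp
    rw [h2] at hneg
    exact lt_irrefl _ hneg
  by_cases hT : T (fun i => μ i)
  · exact absurd (hG μ hμ (fun i => (hpos i).le) ⟨⟨0, hk⟩, hpos _⟩ hT) (not_le.mpr hneg)
  obtain ⟨α, hα, hα0, hαu⟩ := hP.notTrop μ hμ hpos hT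
  have hαv : dot α (fun i => μ i) = val E₀ (fun i => μ i) := by
    obtain ⟨α', hα', h1⟩ := exists_val_eq hP.ne₀ (fun i => μ i)
    rw [← hαu α' hα' h1]
    exact h1
  obtain ⟨i, hi⟩ : ∃ i, α i ≠ 0 := by
    by_contra hcon
    push Not at hcon
    exact hα0 (funext hcon)
  -- the best element
  obtain ⟨γ₀, hγ₀, hγ₀i⟩ := hP.zero i
  obtain ⟨β, hβ, hβmin⟩ := Finset.exists_min_image (E₀.filter fun β => β i < α i)
    (fun β => (dot β (fun j => μ j) - dot α (fun j => μ j)) / ((α i : ℝ) - β i))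
    ⟨γ₀, Finset.mem_filter.mpr ⟨hγ₀, by omega⟩⟩
  obtain ⟨hβE, hβi⟩ := Finset.mem_filter.mp hβ
  have hlt : ∀ γ ∈ E₀, γ i < α i → dot α (fun j => μ j) < dot γ (fun j => μ j) := by
    intro γ hγ hγi
    refine lt_of_le_of_ne (by rw [hαv]; exact val_le hγ _) fun h => ?_
    have h1 := hαu γ hγ (by rw [← h, hαv])
    rw [h1] at hγi
    exact lt_irrefl _ hγi
  have hden : ∀ γ : Fin k → ℕ, γ i < α i → (0 : ℝ) < (α i : ℝ) - γ i := by
    intro γ hγi
    have : (γ i : ℝ) < α i := by exact_mod_cast hγi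
    linarith
  obtain ⟨z, hz⟩ := hP.int₀ μ hμ β hβE α hα
  set t : ℝ := (dot β (fun j => μ j) - dot α (fun j => μ j)) / ((α i : ℝ) - β i) with ht
  have hβd := hden β hβi
  have ht0 : 0 < t := div_pos (by linarith [hlt β hβE hβi]) hβd
  have htβ : t * ((α i : ℝ) - β i) = dot β (fun j => μ j) - dot α (fun j => μ j) := by
    rw [ht, div_mul_cancel₀ _ hβd.ne']
  set ν : Fin k → ℝ := fun j => μ j + if j = i then t else 0 with hν
  have hdν : ∀ γ : Fin k → ℕ, dot γ ν = dot γ (fun j => μ j) + t * γ i := fun γ =>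
    dot_add' γ (fun j => μ j) i t
  have hαmin : ∀ γ ∈ E₀, dot α ν ≤ dot γ ν := by
    intro γ hγ
    rw [hdν, hdν]
    by_cases hγi : γ i < α i
    · have h1 := hβmin γ (Finset.mem_filter.mpr ⟨hγ, hγi⟩)
      rw [le_div_iff₀ (hden γ hγi)] at h1
      linarith
    · push Not at hγi
      have h1 : (α i : ℝ) ≤ γ i := by exact_mod_cast hγi
      have h2 := mul_le_mul_of_nonneg_left h1 ht0.le
      have h3 : dot α (fun j => μ j) ≤ dot γ (fun j => μ j) := by
        rw [hαv]
        exact val_le hγ _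
      linarith
  have hvν : val E₀ ν = dot α ν := by
    apply le_antisymm (val_le hα _)
    obtain ⟨γ, hγ, h1⟩ := exists_val_eq hP.ne₀ ν
    rw [← h1]
    exact hαmin γ hγ
  have hβν : dot β ν = val E₀ ν := by
    rw [hvν, hdν, hdν]
    linarith
  have hvt : ∀ s, val (E s) (fun j => μ j) ≤ val (E s) ν := by
    intro s
    obtain ⟨γ, hγ, h1⟩ := exists_val_eq (hP.ne s) ν
    rw [← h1, hdν]
    have h2 : val (E s) (fun j => μ j) ≤ dot γ (fun j => μ j) := val_le hγ _
    have h3 : 0 ≤ t * (γ i : ℝ) := mul_nonneg ht0.le (Nat.cast_nonneg _)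
    linarith
  have hcν : cost b c E₀ E ν < 0 := by
    refine lt_of_le_of_lt ?_ hneg
    unfold cost
    have h1 : ∑ j, ν j * (1 - b j) = ∑ j, μ j * (1 - b j) + t * (1 - b i) := by
      rw [hν]
      simp only [add_mul, Finset.sum_add_distrib, ite_mul, zero_mul, Finset.sum_ite_eq',
        Finset.mem_univ, if_true]
    have h2 : ∑ s, c s * val (E s) (fun j => μ j) ≤ ∑ s, c s * val (E s) ν :=
      Finset.sum_le_sum fun s _ => mul_le_mul_of_nonneg_left (hvt s) (hc s)
    have h3 : val E₀ ν = val E₀ (fun j => μ j) + t * α i := by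
      rw [hvν, hdν, hαv]
    have h4 : (1 : ℝ) ≤ α i := by
      have : 1 ≤ α i := Nat.one_le_iff_ne_zero.mpr hi
      exact_mod_cast this
    have h5 : t * (1 - b i) ≤ t * α i :=
      mul_le_mul_of_nonneg_left (by linarith [hb i]) ht0.le
    rw [h1, h3]
    linarith
  -- clear denominators
  set N : ℕ := α i - β i with hN
  have hNr : (N : ℝ) = (α i : ℝ) - β i := by
    rw [hN, Nat.cast_sub hβi.le]
  have hNt : (N : ℝ) * t = z := by
    rw [hNr, mul_comm, htβ, hz]
  have hNpos : (0 : ℝ) < N := by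
    rw [hNr]
    exact hβd
  obtain ⟨τ, hτdef⟩ : ∃ τ : EuclideanSpace ℝ (Fin k),
      τ = N • μ + intVec (fun j => if j = i then z else 0) := ⟨_, rfl⟩
  have hτH : τ ∈ H := by
    rw [hτdef]
    exact H.add_mem (H.nsmul_mem hμ _) (hP.hH _)
  have hτν : (fun j => τ j) = fun j => (N : ℝ) * ν j := by
    funext j
    rw [hτdef, PiLp.add_apply, Pool.Agent.Helper31.Toric.intVec_apply]
    have h1 : (N • μ) j = (N : ℝ) * μ j := by
      rw [← Nat.cast_smul_eq_nsmul ℝ N μ, PiLp.smul_apply, smul_eq_mul]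
    rw [h1]
    show (N : ℝ) * μ j + ((if j = i then z else 0 : ℤ) : ℝ) =
      (N : ℝ) * (μ j + if j = i then t else 0)
    split_ifs
    · rw [mul_add, hNt]
    · simp
  have hνpos : ∀ j, 0 < ν j := by
    intro j
    have h1 : 0 ≤ (if j = i then t else 0) := by
      split_ifs
      · exact ht0.le
      · exact le_rfl
    have h2 := hpos j
    show 0 < μ j + if j = i then t else 0
    linarith
  have hτpos : ∀ j, 0 < τ j := by
    intro j
    have h1 : τ j = (N : ℝ) * ν j := congrFun hτν j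
    rw [h1]
    exact mul_pos hNpos (hνpos j)
  have hTτ : T (fun j => τ j) := by
    refine hP.trop τ hτH (fun j => (hτpos j).le) α hα β hβE ?_ ?_ ⟨i, hτpos i, by omega⟩
    · rw [hτν, dot_smul', val_smul _ _ _ hNpos.le, hvν]
    · rw [hτν, dot_smul', val_smul _ _ _ hNpos.le, hβν]
  have h6 := hG τ hτH (fun j => (hτpos j).le) ⟨i, hτpos i⟩ hTτ
  rw [hτν, cost_smul' _ _ _ _ _ _ hNpos.le] at h6
  have h7 := mul_neg_of_pos_of_neg hNpos hcν
  linarith

end Pool.Agent.Helper98.Germ
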