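import Mathlib

/-!
# Log canonical thresholds with a positive log discrepancy of non-degenerate germs: definitions

Let `Y` be an affine toric variety with cone `σ` in the lattice `ℤ ^ d`, with primitive ray
generators `v i`, `i : Fin r`, and torus fixed point `o`. `X ∋ o` is `Y` itself (`e = 0`) or a
hypersurface `f = 0` of `Y` (`e = 1`), `D_i` is the restriction to `X` of the toric divisor of
`v i`, and `N_j`, `j : Fin p`, is the divisor `g_j = 0` on `X`; `f` and the `g_j` are non-degenerate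
with respect to their Newton polyhedra. `A h` (`h : Fin e`) and `C j` are the sets of exponents
of `f` and of the `g_j` (Laurent polynomials, homogeneous for the class group grading). The
boundary is `∑ i, b i D_i + ∑ j, b' j N_j`.
-/

open scoped ENNReal

namespace Pool.Agent.Helper98.Germ

/-- The pairing of an exponent with a lattice vector. -/
def pair {d : ℕ} (w y : Fin d → ℤ) : ℤ := ∑ j, w j * y j

/-- The smallest value of the exponents in `A` at the lattice vector `y`. -/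
noncomputable def mn {d : ℕ} (A : Finset (Fin d → ℤ)) (y : Fin d → ℤ) : ℤ :=
  if h : A.Nonempty then A.inf' h (fun w => pair w y) else 0

/-- The lattice vector `y` gives divisors over the germ of the hypersurface with exponents `A`:
the initial form at `y` is not a monomial times a unit at `o`, that is, there is no exponent `w₀`
such that all `w - w₀`, for the exponents `w` of the initial form at `y`, are in the dual
cone. -/
def Trop {r d : ℕ} (v : Fin r → Fin d → ℤ) (A : Finset (Fin d → ℤ)) (y : Fin d → ℤ) : Prop :=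
  ¬ ∃ w₀ ∈ A, ∀ w ∈ A, pair w y = mn A y → ∀ i, pair w₀ (v i) ≤ pair w (v i)

/-- The numerical data of a non-degenerate germ. -/
def IsData {r d e p : ℕ} (v : Fin r → Fin d → ℤ) (A : Fin e → Finset (Fin d → ℤ))
    (C : Fin p → Finset (Fin d → ℤ)) : Prop :=
  e ≤ 1 ∧ (∀ i, v i ≠ 0) ∧ (∃ u : Fin d → ℝ, ∀ i, 0 < ∑ j, u j * (v i j : ℝ)) ∧
    (∀ h, (A h).Nonempty) ∧ (∀ j, (C j).Nonempty) ∧ ∀ h i, Trop v (A h) (v i)

/-- The log discrepancy at the lattice vector `y = ∑ i, l i v i` of the pair with boundary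
coefficients `b i`, `b' j` (for an `ℝ`-Cartier log canonical divisor it does not depend on
`l`). -/
noncomputable def ld {r d e p : ℕ} (v : Fin r → Fin d → ℤ) (A : Fin e → Finset (Fin d → ℤ))
    (C : Fin p → Finset (Fin d → ℤ)) (b : Fin r → ℝ) (b' : Fin p → ℝ) (l : Fin r → ℝ)
    (y : Fin d → ℤ) : ℝ :=
  ∑ i, l i * (1 - b i) - ∑ h, ((mn (A h) y : ℝ) - ∑ i, l i * (mn (A h) (v i) : ℝ)) -
    ∑ j, b' j * ((mn (C j) y : ℝ) - ∑ i, l i * (mn (C j) (v i) : ℝ))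

/-- The germ with boundary coefficients `b i`, `b' j` is `ε`-lc. -/
def IsLC {r d e p : ℕ} (ε : ℝ) (v : Fin r → Fin d → ℤ) (A : Fin e → Finset (Fin d → ℤ))
    (C : Fin p → Finset (Fin d → ℤ)) (b : Fin r → ℝ) (b' : Fin p → ℝ) : Prop :=
  (∀ j, b' j ≤ 1 - ε) ∧ ∀ (l : Fin r → ℝ) (y : Fin d → ℤ), (∀ i, 0 ≤ l i) → y ≠ 0 →
    (∀ j, (y j : ℝ) = ∑ i, l i * (v i j : ℝ)) → (∀ h, Trop v (A h) y) →
      ε ≤ ld v A C b b' l y

/-- The `ε`-lc threshold of `M = ∑ i, m i D_i + ∑ j, m' j N_j` with respect to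
`B = ∑ i, b i D_i + ∑ j, b' j N_j`, in `[0, ∞]`. -/
noncomputable def threshold {r d e p : ℕ} (ε : ℝ) (v : Fin r → Fin d → ℤ)
    (A : Fin e → Finset (Fin d → ℤ)) (C : Fin p → Finset (Fin d → ℤ)) (b m : Fin r → ℝ)
    (b' m' : Fin p → ℝ) : ℝ≥0∞ :=
  ⨆ (t : ℝ) (_ : 0 ≤ t ∧ IsLC ε v A C (fun i => b i + t * m i) (fun j => b' j + t * m' j)),
    ENNReal.ofReal t

/-- The set of all thresholds, for a fixed dimension `n = d - e` of the germ `X`, with `ε ∈ E`,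
the non-zero coefficients of `B` in `Γ₁` and those of `M` in `Γ₂`, over all `ε`-lc pairs. -/
def thresholds (n : ℕ) (E Γ₁ Γ₂ : Set ℝ) : Set ℝ≥0∞ :=
  {t | ∃ ε ∈ E, ∃ (d e r p : ℕ) (v : Fin r → Fin d → ℤ) (A : Fin e → Finset (Fin d → ℤ))
    (C : Fin p → Finset (Fin d → ℤ)) (b m : Fin r → ℝ) (b' m' : Fin p → ℝ),
    d = n + e ∧ IsData v A C ∧ 0 ≤ ε ∧ (∀ i, (b i = 0 ∨ b i ∈ Γ₁) ∧ 0 ≤ b i) ∧
    (∀ j, (b' j = 0 ∨ b' j ∈ Γ₁) ∧ 0 ≤ b' j) ∧ (∀ i, (m i = 0 ∨ m i ∈ Γ₂) ∧ 0 ≤ m i) ∧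
    (∀ j, (m' j = 0 ∨ m' j ∈ Γ₂) ∧ 0 ≤ m' j) ∧ IsLC ε v A C b b' ∧
    t = threshold ε v A C b m b' m'}

/-- The descending chain condition: no strictly decreasing infinite sequence. -/
def DCC (Γ : Set ℝ) : Prop := ¬ ∃ f : ℕ → ℝ, StrictAnti f ∧ ∀ n, f n ∈ Γ

/-- The ascending chain condition: no strictly increasing infinite sequence. -/
def ACC (S : Set ℝ≥0∞) : Prop := ¬ ∃ f : ℕ → ℝ≥0∞, StrictMono f ∧ ∀ n, f n ∈ S

/-- Decomposed complements: there is a finite set `Γ₀`, depending only on `n`, `E` and `Γ`, such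
that the coefficients of every `ε`-lc pair of dimension `n = d - e` with `ε ∈ E` and non-zero
coefficients in `Γ` can be raised to elements of `Γ₀` so that the pair is again `ε`-lc. -/
def Decomposed (n : ℕ) (E Γ : Set ℝ) : Prop :=
  ∃ Γ₀ : Set ℝ, Γ₀.Finite ∧ ∀ (d e r p : ℕ) (ε : ℝ) (v : Fin r → Fin d → ℤ)
    (A : Fin e → Finset (Fin d → ℤ)) (C : Fin p → Finset (Fin d → ℤ)) (b : Fin r → ℝ)
    (b' : Fin p → ℝ), d = n + e → IsData v A C → ε ∈ E → 0 ≤ ε → (∀ i, (b i = 0 ∨ b i ∈ Γ) ∧ 0 ≤ b i) →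
    (∀ j, (b' j = 0 ∨ b' j ∈ Γ) ∧ 0 ≤ b' j) → IsLC ε v A C b b' →
      ∃ (c : Fin r → ℝ) (c' : Fin p → ℝ), (∀ i, b i ≤ c i ∧ c i ∈ Γ₀) ∧
        (∀ j, b' j ≤ c' j ∧ c' j ∈ Γ₀) ∧ IsLC ε v A C c c'

end Pool.Agent.Helper98.Germ
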