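import Pool.Agent.Helper98.Germ.Ax
import Pool.Agent.Helper98.Germ.Pia0
import Pool.Agent.Helper98.Germ.Pia
import Pool.Agent.Helper98.Germ.Core

/-!
# Violations of bounded size

Plan. Let `0 < m`, and let `k, f, l, y` be as in `Viol`; `k > 0` since `y ≠ 0`. By `pax_of_data`
(with `l`) and `IsLC.le_cost`, `PAx.pia_zero` (if `F.ε m = 0`) or `PAx.pia_pos` (if `> 0`) gives for
each `a < m` and every `μ ∈ coefGroup (v ∘ f)` with all `μ i > 0`:
`F.ε m ≤ cost (F.G a m ∘ f) (F.G' a m) E₀ E μ` (*), where `E t = expo (v ∘ f) (C t)`.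
Let `J` be the set of the `j` with `¬ F.Z m j` and `0 ∉ E j`. (*) for `a = 0` and
`μ = (1, ..., 1)` gives `0 ≤ k - ∑ j ∈ J, c₀` (`val (E j) μ ≥ 1` for `j ∈ J`, all other terms have
the right sign: `F.hG0`, `F.hG0'`, `F.hZG`), so `J.card ≤ d / c₀ ≤ N₀`. Let `g : Fin P → Fin p`
enumerate `J`. For `j ∉ J`, `c j * val (E j) μ` is `≥ 0` at the levels `G'` (drop it in (*)), and
`= 0` at the level `B'` at `μ = l` (`F.hZB`, or `0 ∈ E j`). The family for `core` is
`Fin.cons E₀ (E ∘ g)` with coefficients `Fin.cons 1 (c ∘ g)`, `Fin (P + 1)`.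
-/

open Finset Filter Topology

namespace Pool.Agent.Helper98.Germ

open Pool.Agent.Helper31.Toric (intVec coefGroup exists_limit)

/-- A violation with `K` rays and `P` divisors at the index `m`. -/
def RedAt {d e : ℕ} (F : Fam d e) (m K P : ℕ) : Prop :=
  ∃ (f : Fin K → Fin (F.r m)) (g : Fin P → Fin (F.p m)) (l : Fin K → ℝ),
    (∀ i, 0 < l i) ∧ (WithLp.toLp 2 l : EuclideanSpace ℝ (Fin K)) ∈
      coefGroup (fun i => F.v m (f i)) ∧
    total (fun i => F.B m (f i)) (Fin.cons 1 (fun t => F.B' m (g t)) : Fin (P + 1) → ℝ)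
      (Fin.cons (eqE (fun i => F.v m (f i)) (F.A m))
        (fun t => expo (fun i => F.v m (f i)) (F.C m (g t)))) l < F.ε m ∧
    ∀ a, a < m → ∀ μ ∈ coefGroup (fun i => F.v m (f i)), (∀ i, 0 < μ i) →
      F.ε m ≤ total (fun i => F.G a m (f i))
        (Fin.cons 1 (fun t => F.G' a m (g t)) : Fin (P + 1) → ℝ)
        (Fin.cons (eqE (fun i => F.v m (f i)) (F.A m))
          (fun t => expo (fun i => F.v m (f i)) (F.C m (g t)))) (fun i => μ i)

private theorem val_nonneg {k : ℕ} (E : Finset (Fin k → ℕ)) (μ : Fin k → ℝ) (hμ : ∀ i, 0 ≤ μ i) :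
    0 ≤ val E μ := by
  by_cases h : E.Nonempty
  · obtain ⟨α, -, e⟩ := exists_val_eq h μ
    rw [← e]
    exact Finset.sum_nonneg fun i _ => mul_nonneg (Nat.cast_nonneg _) (hμ i)
  · unfold val
    rw [dif_neg h]

private theorem val_eq_zero {k : ℕ} {E : Finset (Fin k → ℕ)} (h0 : (0 : Fin k → ℕ) ∈ E)
    (μ : Fin k → ℝ) (hμ : ∀ i, 0 ≤ μ i) : val E μ = 0 := by
  refine le_antisymm ((val_le h0 μ).trans ?_) (val_nonneg E μ hμ)
  simp [dot]

private theorem one_le_val {k : ℕ} {E : Finset (Fin k → ℕ)} (hE : E.Nonempty)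
    (h0 : (0 : Fin k → ℕ) ∉ E) : 1 ≤ val E (fun _ => 1) := by
  obtain ⟨α, hα, e⟩ := exists_val_eq hE (fun _ => 1)
  rw [← e]
  have hne : α ≠ 0 := by
    rintro rfl
    exact h0 hα
  obtain ⟨i, hi⟩ := Function.ne_iff.1 hne
  have h1 : 1 ≤ α i := Nat.one_le_iff_ne_zero.2 hi
  have h2 : ((α i : ℕ) : ℝ) * 1 ≤ ∑ i, (α i : ℝ) * 1 :=
    Finset.single_le_sum (f := fun i => (α i : ℝ) * 1)
      (fun i _ => mul_nonneg (Nat.cast_nonneg _) zero_le_one) (Finset.mem_univ i)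
  have h3 : (1 : ℝ) ≤ (α i : ℝ) := by exact_mod_cast h1
  unfold dot
  linarith

private theorem le_cost' {d e : ℕ} (F : Fam d e) {m k : ℕ} (hk : 0 < k) (f : Fin k → Fin (F.r m))
    (l : Fin k → ℝ) (hl : ∀ i, 0 < l i)
    (hT : TropAt (F.v m) (F.A m) (fun i => F.v m (f i)) l) (a : ℕ) (ha : a < m)
    (μ : EuclideanSpace ℝ (Fin k)) (hμ : μ ∈ coefGroup (fun i => F.v m (f i)))
    (hpos : ∀ i, 0 < μ i) :
    F.ε m ≤ cost (fun i => F.G a m (f i)) (F.G' a m) (eqE (fun i => F.v m (f i)) (F.A m))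
      (fun t => expo (fun i => F.v m (f i)) (F.C m t)) (fun i => μ i) := by
  have hd := F.data m
  have hP := pax_of_data hd f l hl hT
  have hG : ∀ τ ∈ coefGroup (fun i => F.v m (f i)), (∀ i, 0 ≤ τ i) → (∃ i, 0 < τ i) →
      TropAt (F.v m) (F.A m) (fun i => F.v m (f i)) (fun i => τ i) →
      F.ε m ≤ cost (fun i => F.G a m (f i)) (F.G' a m) (eqE (fun i => F.v m (f i)) (F.A m))
        (fun t => expo (fun i => F.v m (f i)) (F.C m t)) (fun i => τ i) := by
    intro τ _ h1 h2 h3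
    exact IsLC.le_cost hd (F.hyes a m ha) f (fun i => τ i) h1 h2 h3
  rcases (F.hε m).eq_or_lt with h0 | h0
  · rw [← h0] at hG ⊢
    exact hP.pia_zero _ _ (fun i => F.hG0 a m (f i)) (fun t => F.hG0' a m t) hG μ hμ hpos
  · exact hP.pia_pos hk _ h0 _ _ (fun i => F.hG0 a m (f i)) (fun t => F.hG0' a m t) hG μ hμ hpos

private theorem total_cons {k P : ℕ} (b : Fin k → ℝ) (c : Fin P → ℝ) (E₀ : Finset (Fin k → ℕ))
    (E : Fin P → Finset (Fin k → ℕ)) (μ : Fin k → ℝ) :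
    total b (Fin.cons 1 c : Fin (P + 1) → ℝ) (Fin.cons E₀ E) μ =
      ∑ i, μ i * (1 - b i) - val E₀ μ - ∑ t, c t * val (E t) μ := by
  unfold total
  rw [Fin.sum_univ_succ]
  simp only [Fin.cons_zero, Fin.cons_succ]
  ring

theorem Fam.exists_redAt {d e : ℕ} (F : Fam d e) : ∃ N₀ : ℕ, ∀ m, 0 < m →
    Viol (F.ε m) (F.v m) (F.A m) (F.C m) (F.B m) (F.B' m) →
    ∃ K P : ℕ, K ≤ N₀ ∧ P ≤ N₀ ∧ RedAt F m K P := by
  classical
  refine ⟨d + ⌈(d : ℝ) / F.c₀⌉₊, fun m hm hV => ?_⟩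
  obtain ⟨k, f, l, y, hkd, hl, hy0, hy, hTr, hcost⟩ := hV
  have hk : 0 < k := by
    rcases Nat.eq_zero_or_pos k with h | h
    · subst h
      exfalso
      apply hy0
      funext j
      have := hy j
      simp only [Finset.univ_eq_empty, Finset.sum_empty] at this
      exact_mod_cast this
    · exact h
  have hT : TropAt (F.v m) (F.A m) (fun i => F.v m (f i)) l := ⟨y, hy, hTr⟩
  have key := fun a ha μ hμ hpos => le_cost' F hk f l hl hT a ha μ hμ hpos
  set E₀ := eqE (fun i => F.v m (f i)) (F.A m) with hE₀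
  set E : Fin (F.p m) → Finset (Fin k → ℕ) :=
    fun t => expo (fun i => F.v m (f i)) (F.C m t) with hE
  have hEne : ∀ t, (E t).Nonempty := (pax_of_data (F.data m) f l hl hT).ne
  set J : Finset (Fin (F.p m)) :=
    Finset.univ.filter (fun j => ¬ F.Z m j ∧ (0 : Fin k → ℕ) ∉ E j) with hJ
  -- the number of elements of `J`
  have hJcard : (J.card : ℝ) * F.c₀ ≤ d := by
    have h1 := key 0 hm (intVec (fun _ => 1))
      ((pax_of_data (F.data m) f l hl hT).hH (fun _ => 1)) (fun i => by simp [intVec])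
    have h2 : (fun i => (intVec (fun _ => 1) : EuclideanSpace ℝ (Fin k)) i) = fun _ => (1 : ℝ) := by
      funext i
      simp [intVec]
    rw [h2] at h1
    unfold cost at h1
    have h3 : ∑ i : Fin k, (1 : ℝ) * (1 - F.G 0 m (f i)) ≤ k := by
      calc ∑ i : Fin k, (1 : ℝ) * (1 - F.G 0 m (f i)) ≤ ∑ _i : Fin k, (1 : ℝ) :=
            Finset.sum_le_sum fun i _ => by linarith [F.hG0 0 m (f i)]
        _ = k := by simp
    have h4 : 0 ≤ val E₀ (fun _ => 1) := val_nonneg _ _ fun _ => zero_le_one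
    have h5 : (J.card : ℝ) * F.c₀ ≤ ∑ t, F.G' 0 m t * val (E t) (fun _ => 1) := by
      calc (J.card : ℝ) * F.c₀ = ∑ _j ∈ J, F.c₀ := by rw [Finset.sum_const, nsmul_eq_mul]
        _ ≤ ∑ j ∈ J, F.G' 0 m j * val (E j) (fun _ => 1) := by
          refine Finset.sum_le_sum fun j hj => ?_
          rw [hJ, Finset.mem_filter] at hj
          have h6 := F.hZG 0 m j hj.2.1
          have h7 := one_le_val (hEne j) hj.2.2
          nlinarith [F.hc₀]
        _ ≤ ∑ t, F.G' 0 m t * val (E t) (fun _ => 1) :=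
          Finset.sum_le_sum_of_subset_of_nonneg (Finset.subset_univ _) fun t _ _ =>
            mul_nonneg (F.hG0' 0 m t) (val_nonneg _ _ fun _ => zero_le_one)
    have h6 := F.hε m
    have h7 : (k : ℝ) ≤ d := by exact_mod_cast hkd
    linarith
  have hP : J.card ≤ d + ⌈(d : ℝ) / F.c₀⌉₊ := by
    have h1 : (J.card : ℝ) ≤ (d : ℝ) / F.c₀ := by
      rw [le_div_iff₀ F.hc₀]
      exact hJcard
    have h2 : (J.card : ℝ) ≤ (⌈(d : ℝ) / F.c₀⌉₊ : ℝ) := h1.trans (Nat.le_ceil _)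
    have h3 : J.card ≤ ⌈(d : ℝ) / F.c₀⌉₊ := by exact_mod_cast h2
    omega
  let g : Fin J.card → Fin (F.p m) := fun t => (J.equivFin.symm t : J).1
  have hg : ∀ φ : Fin (F.p m) → ℝ, ∑ t, φ (g t) = ∑ j ∈ J, φ j := by
    intro φ
    rw [← Finset.sum_coe_sort J φ]
    exact Equiv.sum_comp J.equivFin.symm (fun x : J => φ x.1)
  refine ⟨k, J.card, hkd.trans (Nat.le_add_right _ _), hP, f, g, l, hl, ⟨y, hy⟩, ?_, ?_⟩
  · refine lt_of_eq_of_lt ?_ hcost
    refine (total_cons (fun i => F.B m (f i)) (fun t => F.B' m (g t)) E₀ (fun t => E (g t)) l).trans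
      ?_
    rw [hg (fun j => F.B' m j * val (E j) l)]
    unfold cost
    congr 1
    refine Finset.sum_subset (Finset.subset_univ _) fun j _ hj => ?_
    rw [hJ, Finset.mem_filter, not_and] at hj
    have h1 := hj (Finset.mem_univ _)
    by_cases hZ : F.Z m j
    · rw [F.hZB m j hZ, zero_mul]
    · have h2 : (0 : Fin k → ℕ) ∈ E j := by
        by_contra hc
        exact h1 ⟨hZ, hc⟩
      rw [val_eq_zero h2 l fun i => (hl i).le, mul_zero]
  · intro a ha μ hμ hpos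
    refine (key a ha μ hμ hpos).trans ?_
    refine le_of_le_of_eq ?_ (total_cons (fun i => F.G a m (f i)) (fun t => F.G' a m (g t)) E₀
      (fun t => E (g t)) (fun i => μ i)).symm
    rw [hg (fun j => F.G' a m j * val (E j) (fun i => μ i))]
    unfold cost
    have h1 : ∑ j ∈ J, F.G' a m j * val (E j) (fun i => μ i) ≤
        ∑ t, F.G' a m t * val (E t) (fun i => μ i) :=
      Finset.sum_le_sum_of_subset_of_nonneg (Finset.subset_univ _) fun t _ _ =>
        mul_nonneg (F.hG0' a m t) (val_nonneg _ _ fun i => (hpos i).le)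
    linarith

end Pool.Agent.Helper98.Germ
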