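import Pool.Agent.Helper98.Germ.Defs

/-!
# Orders in terms of exponent vectors

The minima over the exponents and the log discrepancy in terms of the coefficients of a combination
of the rays.
-/

open Finset Filter Topology

namespace Pool.Agent.Helper98.Germ

open Pool.Agent.Helper31.Toric (intVec coefGroup)

theorem mn_le {d : ℕ} {A : Finset (Fin d → ℤ)} {w : Fin d → ℤ} (hw : w ∈ A) (y : Fin d → ℤ) :
    mn A y ≤ pair w y := by
  unfold mn
  rw [dif_pos ⟨w, hw⟩]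
  exact Finset.inf'_le (f := fun w => pair w y) hw

theorem exists_mn_eq {d : ℕ} {A : Finset (Fin d → ℤ)} (hA : A.Nonempty) (y : Fin d → ℤ) :
    ∃ w ∈ A, pair w y = mn A y := by
  obtain ⟨w, hw, h⟩ := Finset.exists_mem_eq_inf' hA (fun w => pair w y)
  refine ⟨w, hw, ?_⟩
  unfold mn
  rw [dif_pos hA, h]

theorem val_le {k : ℕ} {E : Finset (Fin k → ℕ)} {α : Fin k → ℕ} (hα : α ∈ E)
    (μ : Fin k → ℝ) : val E μ ≤ dot α μ := by
  unfold val
  rw [dif_pos ⟨α, hα⟩]
  exact Finset.inf'_le (f := fun α => dot α μ) hα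

theorem exists_val_eq {k : ℕ} {E : Finset (Fin k → ℕ)} (hE : E.Nonempty) (μ : Fin k → ℝ) :
    ∃ α ∈ E, dot α μ = val E μ := by
  obtain ⟨α, hα, h⟩ := Finset.exists_mem_eq_inf' hE (fun α => dot α μ)
  refine ⟨α, hα, ?_⟩
  unfold val
  rw [dif_pos hE, h]

theorem dot_expo {k d : ℕ} (v' : Fin k → Fin d → ℤ) {A : Finset (Fin d → ℤ)}
    {w : Fin d → ℤ} (hw : w ∈ A) (μ : Fin k → ℝ) (y : Fin d → ℤ)
    (hy : ∀ j, (y j : ℝ) = ∑ i, μ i * (v' i j : ℝ)) :
    dot (fun i => (pair w (v' i) - mn A (v' i)).toNat) μ =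
      (pair w y : ℝ) - ∑ i, μ i * (mn A (v' i) : ℝ) := by
  have h1 : ∀ i, (((pair w (v' i) - mn A (v' i)).toNat : ℕ) : ℝ) =
      (pair w (v' i) : ℝ) - (mn A (v' i) : ℝ) := by
    intro i
    have h2 : 0 ≤ pair w (v' i) - mn A (v' i) := sub_nonneg.mpr (mn_le hw _)
    have h3 := Int.toNat_of_nonneg h2
    have h4 : (((pair w (v' i) - mn A (v' i)).toNat : ℤ) : ℝ) =
        ((pair w (v' i) - mn A (v' i) : ℤ) : ℝ) := by rw [h3]
    push_cast at h4
    exact h4
  have h2 : (pair w y : ℝ) = ∑ i, μ i * (pair w (v' i) : ℝ) := by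
    unfold pair
    push_cast
    simp only [hy, Finset.mul_sum]
    rw [Finset.sum_comm]
    refine Finset.sum_congr rfl fun i _ => Finset.sum_congr rfl fun j _ => ?_
    ring
  unfold dot
  simp only [h1]
  rw [h2, ← Finset.sum_sub_distrib]
  refine Finset.sum_congr rfl fun i _ => ?_
  ring

private theorem mem_expo {k d : ℕ} {v' : Fin k → Fin d → ℤ} {A : Finset (Fin d → ℤ)}
    {α : Fin k → ℕ} : α ∈ expo v' A ↔
      ∃ w ∈ A, (fun i => (pair w (v' i) - mn A (v' i)).toNat) = α := by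
  unfold expo
  rw [Finset.mem_image]

theorem val_expo {k d : ℕ} (v' : Fin k → Fin d → ℤ) {A : Finset (Fin d → ℤ)}
    (hA : A.Nonempty) (μ : Fin k → ℝ) (y : Fin d → ℤ)
    (hy : ∀ j, (y j : ℝ) = ∑ i, μ i * (v' i j : ℝ)) :
    val (expo v' A) μ = (mn A y : ℝ) - ∑ i, μ i * (mn A (v' i) : ℝ) := by
  apply le_antisymm
  · obtain ⟨w, hw, h⟩ := exists_mn_eq hA y
    have h1 := val_le (mem_expo.mpr ⟨w, hw, rfl⟩ : _ ∈ expo v' A) μ
    rw [dot_expo v' hw μ y hy, h] at h1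
    exact h1
  · have hne : (expo v' A).Nonempty := by
      obtain ⟨w, hw⟩ := hA
      exact ⟨_, mem_expo.mpr ⟨w, hw, rfl⟩⟩
    obtain ⟨α, hα, h⟩ := exists_val_eq hne μ
    obtain ⟨w, hw, rfl⟩ := mem_expo.mp hα
    rw [← h, dot_expo v' hw μ y hy]
    have h2 : (mn A y : ℝ) ≤ (pair w y : ℝ) := by exact_mod_cast mn_le hw y
    linarith

theorem sum_val_eq {k d e : ℕ} (he : e ≤ 1) (v' : Fin k → Fin d → ℤ)
    (A : Fin e → Finset (Fin d → ℤ)) (μ : Fin k → ℝ) :
    ∑ h, val (expo v' (A h)) μ = val (eqE v' A) μ := by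
  rcases Nat.lt_or_ge 0 e with h | h
  · have he1 : e = 1 := by omega
    subst he1
    rw [Fin.sum_univ_one]
    unfold eqE
    rw [dif_pos h]
    rfl
  · have he0 : e = 0 := by omega
    subst he0
    rw [Finset.univ_eq_empty, Finset.sum_empty]
    unfold eqE
    rw [dif_neg (lt_irrefl 0)]
    unfold val
    rw [dif_pos (Finset.singleton_nonempty _), Finset.inf'_singleton]
    simp [dot]

private theorem push_sum {k r : ℕ} (f : Fin k → Fin r) (τ : Fin k → ℝ) (g : Fin r → ℝ) :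
    ∑ i, (∑ i' ∈ univ.filter (fun i' => f i' = i), τ i') * g i = ∑ i', τ i' * g (f i') := by
  classical
  rw [← Finset.sum_fiberwise univ f (fun i' => τ i' * g (f i'))]
  refine Finset.sum_congr rfl fun i _ => ?_
  rw [Finset.sum_mul]
  refine Finset.sum_congr rfl fun i' hi' => ?_
  rw [(Finset.mem_filter.mp hi').2]

theorem IsLC.le_cost {r d e p k : ℕ} {ε : ℝ} {v : Fin r → Fin d → ℤ}
    {A : Fin e → Finset (Fin d → ℤ)} {C : Fin p → Finset (Fin d → ℤ)} {b : Fin r → ℝ}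
    {b' : Fin p → ℝ} (hd : IsData v A C) (h : IsLC ε v A C b b') (f : Fin k → Fin r)
    (τ : Fin k → ℝ) (hτ : ∀ i, 0 ≤ τ i) (hpos : ∃ i, 0 < τ i)
    (hT : TropAt v A (fun i => v (f i)) τ) :
    ε ≤ cost (fun i => b (f i)) b' (eqE (fun i => v (f i)) A)
      (fun t => expo (fun i => v (f i)) (C t)) τ := by
  obtain ⟨he, _, ⟨u, hu⟩, hA, hC, _⟩ := hd
  obtain ⟨y, hy, hyT⟩ := hT
  have hy0 : y ≠ 0 := by
    intro h0
    have h1 : ∑ j, u j * (y j : ℝ) = ∑ i, τ i * ∑ j, u j * (v (f i) j : ℝ) := by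
      simp only [hy, Finset.mul_sum]
      rw [Finset.sum_comm]
      refine Finset.sum_congr rfl fun i _ => Finset.sum_congr rfl fun j _ => ?_
      ring
    have h2 : ∑ j, u j * (y j : ℝ) = 0 := by
      rw [h0]
      simp
    obtain ⟨i, hi⟩ := hpos
    have h3 : 0 < ∑ i, τ i * ∑ j, u j * (v (f i) j : ℝ) :=
      Finset.sum_pos' (fun i _ => mul_nonneg (hτ i) (hu (f i)).le)
        ⟨i, Finset.mem_univ _, mul_pos hi (hu (f i))⟩
    linarith
  have h1 := h.2 (fun i => ∑ i' ∈ univ.filter (fun i' => f i' = i), τ i') y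
    (fun i => Finset.sum_nonneg fun i' _ => hτ i') hy0
    (fun j => by rw [hy j]; exact (push_sum f τ (fun i => (v i j : ℝ))).symm) hyT
  refine h1.trans (le_of_eq ?_)
  unfold ld cost
  rw [push_sum f τ (fun i => 1 - b i), ← sum_val_eq he]
  congr 1
  · congr 1
    refine Finset.sum_congr rfl fun h _ => ?_
    rw [push_sum f τ (fun i => (mn (A h) (v i) : ℝ)),
      val_expo (fun i => v (f i)) (hA h) τ y hy]
  · refine Finset.sum_congr rfl fun t _ => ?_
    rw [push_sum f τ (fun i => (mn (C t) (v i) : ℝ)),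
      val_expo (fun i => v (f i)) (hC t) τ y hy]

/-- The coefficients of the toric prime divisors. -/
theorem IsLC.coef_le {r d e p : ℕ} {ε : ℝ} {v : Fin r → Fin d → ℤ}
    {A : Fin e → Finset (Fin d → ℤ)} {C : Fin p → Finset (Fin d → ℤ)} {b : Fin r → ℝ}
    {b' : Fin p → ℝ} (hd : IsData v A C) (h : IsLC ε v A C b b') (i : Fin r) :
    b i ≤ 1 - ε := by
  obtain ⟨_, hv, _, _, _, hT⟩ := hd
  have hs : ∀ g : Fin r → ℝ, ∑ i', (Pi.single i 1 : Fin r → ℝ) i' * g i' = g i := by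
    intro g
    rw [Finset.sum_eq_single i]
    · rw [Pi.single_eq_same, one_mul]
    · intro i' _ hne
      rw [Pi.single_eq_of_ne hne, zero_mul]
    · intro hni
      exact absurd (Finset.mem_univ i) hni
  have h1 := h.2 (Pi.single i 1) (v i)
    (fun i' => by
      by_cases hi : i' = i
      · rw [hi, Pi.single_eq_same]
        exact zero_le_one
      · rw [Pi.single_eq_of_ne hi])
    (hv i) (fun j => (hs (fun i => (v i j : ℝ))).symm) (fun h => hT h i)
  unfold ld at h1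
  rw [hs] at h1
  have h2 : ∑ h, ((mn (A h) (v i) : ℝ) - ∑ i', (Pi.single i 1 : Fin r → ℝ) i' *
      (mn (A h) (v i') : ℝ)) = 0 := by
    refine Finset.sum_eq_zero fun h _ => ?_
    rw [hs (fun i' => (mn (A h) (v i') : ℝ)), sub_self]
  have h3 : ∑ j, b' j * ((mn (C j) (v i) : ℝ) - ∑ i', (Pi.single i 1 : Fin r → ℝ) i' *
      (mn (C j) (v i') : ℝ)) = 0 := by
    refine Finset.sum_eq_zero fun j _ => ?_
    rw [hs (fun i' => (mn (C j) (v i') : ℝ)), sub_self, mul_zero]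
  rw [h2, h3] at h1
  linarith

end Pool.Agent.Helper98.Germ
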